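import Pool.Agent.Q28.MC.Single

/-!
# The criterion: main theorems
-/

open CategoryTheory AlgebraicGeometry

universe u v w

namespace Pool.Agent.Q28.MC

open Pool.Agent.H914 Pool.Agent.H914.VarClass Pool.Agent.H914.VarClass.Obj Pool.Agent.W492.BB
  Pool.Agent.W550.Corr Pool.Agent.TH133

set_option linter.unusedSectionVars false

variable {k : Type u} [Field k] {𝒱 : VarClass k}

variable {C : TheoryData.{u, v, 0} 𝒱 ℚ} {K : Type w} [Field K] {H : WeilTheoryData.{u, v, w} C K}
  [hC : IsChowProj C] [hH : IsWeilProj H] {X Y Z W : 𝒱.Obj}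

include hC hH

/-- All Chow-Kunneth decompositions are conjugate. -/
theorem conjugate (hU : UniversalC H X) : UnipotentlyConjugate H X := by
  intro π π' h h'
  obtain ⟨hr, hq⟩ := (universalC_iff h).1 hU
  obtain ⟨n, hn, hc, h0⟩ := (isSys h h).exists_conj ((noRaise_iff h).2 hr) (noPhantom_iff.2 hq)
    (isSys h h')
  refine ⟨n.1, n.2, (act0_eq_zero_iff n).1 h0, ?_, ?_⟩
  · intro a b hab
    have h1 := congrArg (fun x : cor0 C X => (x : Cor C X)) (hn a b hab)
    have h2 := val_sand h h n a b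
    exact h2.symm.trans h1
  · intro i
    exact congrArg (fun x : cor0 C X => (x : Cor C X)) (hc i)

/-- **One Chow group of `X × X` suffices.** -/
theorem universal_of_C0At {π : ℕ → C.A (X.prod X)} (h : IsCK H X π)
    (hX : MurreCAt H (X.prod X) X.dim 0) : UniversalC H X := by
  have hB : ∀ σ, IsCK H (X.prod X) σ → ∀ (j : ℕ) (x : C.A (X.prod X)),
      x ∈ C.gr (X.prod X) X.dim → 2 * X.dim < j → C.act (σ j) x = 0 := fun σ hσ j x hx hj =>
    act_eq_zero_of_C0 hX hσ hx hj
  rw [universalC_iff h]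
  exact ⟨fun γ hγ a b hab => comp_zero_of_B0At hB h h hγ hab, noPhantoms_of_B0At hB h⟩

end Pool.Agent.Q28.MC
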