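import Pool.Agent.Q28.MC.DDefs
import Pool.Agent.Q28.MC.Main

/-!
# Murre's conjecture (D) from one decomposition of the square
-/

open CategoryTheory AlgebraicGeometry

universe u v w

namespace Pool.Agent.Q28.MC

open Pool.Agent.H914 Pool.Agent.H914.VarClass Pool.Agent.H914.VarClass.Obj Pool.Agent.W492.BB
  Pool.Agent.W550.Corr Pool.Agent.TH133 Pool.Agent.Q28.MR

set_option linter.unusedSectionVars false

section ring

open Finset

variable {R S : Type*} [Ring R] [Ring S] {f : R →+* S} {p : ℕ → S} {N : ℕ} {e e' : ℕ → R}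

/-- The kernel of `f` is strictly triangular. -/
def Low (f : R →+* S) (e : ℕ → R) : Prop := ∀ x, f x = 0 → ∀ a b, a ≤ b → e b * x * e a = 0

lemma Low.noRaise (h : IsSys f p N e) (hl : Low f e)
    (hp : ∀ (x : R) (i j : ℕ), i ≠ j → f (e j * x * e i) = 0) : NoRaise e := by
  intro x a b hab
  have h1 := hl _ (hp x a b hab.ne) a b hab.le
  have h2 : e b * (e b * x * e a) * e a = e b * x * e a := by
    calc e b * (e b * x * e a) * e a = (e b * e b) * x * (e a * e a) := by simp only [mul_assoc]
      _ = _ := by rw [h.idem, h.idem]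
  rw [← h2]
  exact h1

lemma Low.noPhantom (h : IsSys f p N e) (hl : Low f e) : NoPhantom f := by
  intro q hq hf
  have h1 := h.pow_eq_zero (n := q) (hl q hf)
  have h3 : ∀ k : ℕ, q ^ (k + 1) = q := by
    intro k
    induction k with
    | zero => rw [zero_add, pow_one]
    | succ k ih => rw [pow_succ, ih, hq]
  rw [← h3 N, h1]

lemma Low.of_isSys (h : IsSys f p N e) (hl : Low f e)
    (hp : ∀ (x : R) (i j : ℕ), i ≠ j → f (e j * x * e i) = 0) (h' : IsSys f p N e') :
    Low f e' := by
  obtain ⟨n, hn, hc, h0⟩ := h.exists_conj (Low.noRaise h hl hp) (Low.noPhantom h hl) h'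
  obtain ⟨v, hv, hv'⟩ := h.exists_inv hn
  have h1 : ∀ i, e' i = (1 + n) * e i * v := by
    intro i
    rw [← hc, mul_assoc, hv, mul_one]
  intro x hx a b hab
  rw [h1, h1]
  calc (1 + n) * e b * v * x * ((1 + n) * e a * v)
      = (1 + n) * (e b * (v * x * (1 + n)) * e a) * v := by simp only [mul_assoc]
    _ = 0 := by
      rw [hl _ (by rw [map_mul, map_mul, hx, mul_zero, zero_mul]) a b hab, mul_zero, zero_mul]

/-- Products of `N + 1` elements of the kernel vanish. -/
lemma Low.prod_eq_zero (h : IsSys f p N e) (hl : Low f e) (l : List R) (hlen : l.length = N + 1)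
    (hk : ∀ x ∈ l, f x = 0) : l.prod = 0 := by
  have key : ∀ (l : List R), (∀ x ∈ l, f x = 0) → ∀ a b : ℕ, a < b + l.length →
      e b * l.prod * e a = 0 := by
    intro l
    induction l with
    | nil =>
      intro _ a b hab
      rw [List.length_nil, add_zero] at hab
      rw [List.prod_nil, mul_one, h.orth (by omega)]
    | cons x l ih =>
      intro hk a b hab
      rw [List.length_cons] at hab
      rw [List.prod_cons]
      have h1 : e b * (x * l.prod) * e a = ∑ c ∈ range (N + 1),
          (e b * x * e c) * (e c * l.prod * e a) := by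
        have h2 : e b * (x * l.prod) * e a =
            e b * x * (∑ c ∈ range (N + 1), e c) * l.prod * e a := by
          rw [h.sum]; simp only [mul_assoc, one_mul]
        rw [h2, mul_sum, sum_mul, sum_mul]
        apply sum_congr rfl
        intro c _
        calc e b * x * e c * l.prod * e a = e b * x * (e c * e c) * l.prod * e a := by rw [h.idem]
          _ = _ := by simp only [mul_assoc]
      rw [h1]
      apply sum_eq_zero
      intro c _
      by_cases hc : c ≤ b
      · rw [hl x (hk x (by simp)) c b hc, zero_mul]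
      · rw [ih (fun y hy => hk y (List.mem_cons_of_mem _ hy)) a c (by omega), mul_zero]
  apply h.eq_zero
  intro i j
  by_cases hj : j ≤ N
  · exact key l hk _ _ (by omega)
  · rw [h.out j (by omega), mul_zero]

end ring

variable {k : Type u} [Field k] {𝒱 : VarClass k}

variable {C : TheoryData.{u, v, 0} 𝒱 ℚ} {K : Type w} [Field K] {H : WeilTheoryData.{u, v, w} C K}
  [hC : IsChowProj C] [hH : IsWeilProj H] {X Y Z W : 𝒱.Obj}

include hC hH

lemma low_iff {π : ℕ → C.A (X.prod X)} (h : IsCK H X π) :
    Low (act0 H X) (sys h) ↔ KernelLowers H π := by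
  constructor
  · intro h1 γ hγ h0 a b hab
    have h2 := congrArg (fun x : cor0 C X => (x : Cor C X))
      (h1 ⟨γ, hγ⟩ ((act0_eq_zero_iff _).2 h0) a b hab)
    have h3 := val_sand h h ⟨γ, hγ⟩ a b
    exact h3.symm.trans h2
  · intro h1 x hx a b hab
    apply Subtype.ext
    rw [val_sand]
    exact h1 x.1 x.2 ((act0_eq_zero_iff _).1 hx) a b hab

/-- **(D) for the decomposition `π^t × π` of `X × X` in codimension `dim X`.** -/
theorem satisfiesDAt_square_iff {π : ℕ → C.A (X.prod X)} (h : IsCK H X π) :
    SatisfiesDAt H (squareCK C π) X.dim ↔ KernelLowers H π := by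
  have hsq : IsCK H (X.prod X) (squareCK C π) := h.dual.prod h
  constructor
  · intro hD γ hγ h0 a b hab
    by_cases ha : a ≤ 2 * X.dim
    · apply comp_zero_of_prod (H := H) h h ha
      have h1 := hD γ hγ h0
      rw [hsq.mem_ckFil] at h1
      exact h1.2 _ (by omega)
    · rw [h.out a (by omega), zero_comp, zero_comp]
  · intro hL γ hγ h0
    rw [hsq.mem_ckFil]
    refine ⟨hγ, fun m hm => ?_⟩
    have h1 : squareCK C π m = ∑ i ∈ Finset.range (m + 1),
        tens C (dualCK C π i) (π (m - i)) := rfl
    rw [h1, act_sum]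
    apply Finset.sum_eq_zero
    intro i hi
    rw [Finset.mem_range] at hi
    by_cases hi2 : i ≤ 2 * X.dim
    · have h2 : dualCK C π i = tp C (π (2 * X.dim - i)) := by
        unfold dualCK
        rw [if_pos hi2]
      rw [h2, act_tens C (ch_comm C), tp_tp]
      exact hL γ hγ h0 _ _ (by omega)
    · have h2 : dualCK C π i = 0 := by
        unfold dualCK
        rw [if_neg hi2]
      rw [h2, tens_zero_left, C.act_zero]

lemma kernelLowers_all {π π' : ℕ → C.A (X.prod X)} (h : IsCK H X π) (hL : KernelLowers H π)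
    (h' : IsCK H X π') : KernelLowers H π' := by
  rw [← low_iff h'] 
  rw [← low_iff h] at hL
  exact Low.of_isSys (isSys h h) hL (fun x i j hij => act0_sand h x hij) (isSys h h')

lemma universal_of_lowers {π : ℕ → C.A (X.prod X)} (h : IsCK H X π) (hL : KernelLowers H π) :
    UniversalC H X := by
  rw [universalC_iff h, ← noRaise_iff h, ← noPhantom_iff]
  rw [← low_iff h] at hL
  exact ⟨Low.noRaise (isSys h h) hL (fun x i j hij => act0_sand h x hij),
    Low.noPhantom (isSys h h) hL⟩

lemma faithful_of_lowers {π : ℕ → C.A (X.prod X)} (h : IsCK H X π) (hL : KernelLowers H π) :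
    FaithfulOnParts H π := by
  intro γ a hγ h0
  have h1 : C.Deg X.dim (C.comp (C.comp (π a) γ) (π a)) :=
    comp_mem0 C (comp_mem0 C (h.deg a) hγ) (h.deg a)
  have h2 := hL _ h1 h0 a a le_rfl
  have h3 : C.comp (C.comp (π a) (C.comp (C.comp (π a) γ) (π a))) (π a) =
      C.comp (C.comp (π a) γ) (π a) := by
    rw [← comp_assoc, ← comp_assoc, h.idem, comp_assoc, h.idem]
  rwa [h3] at h2

lemma lowers_of {π : ℕ → C.A (X.prod X)} (h : IsCK H X π) (hr : NeverRaises C π)
    (hf : FaithfulOnParts H π) : KernelLowers H π := by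
  intro γ hγ h0 a b hab
  rcases hab.eq_or_lt with h1 | h1
  · subst h1
    apply hf γ a hγ
    rw [cl_comp, cl_comp, h0]
    have h2 := cl_comp (H := H) (C.comp (π a) γ) (π a)
    have h3 := cl_comp (H := H) (π a) (0 : C.A (X.prod X))
    rw [comp_zero, map_zero] at h3
    rw [← h3]
    have h4 := cl_comp (H := H) (0 : C.A (X.prod X)) (π a)
    rw [zero_comp, map_zero] at h4
    exact h4.symm
  · exact hr γ hγ a b h1

/-- Homologically trivial classes are killed by the projectors of large index. -/
lemma act_eq_zero_of_lowers {π : ℕ → C.A (X.prod X)} (h : IsCK H X π) (hL : KernelLowers H π)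
    {i b : ℕ} {z : C.A X} (hz : C.Deg i z) (h0 : H.cl z = 0) (hb : 2 * i ≤ b) :
    C.act (π b) z = 0 := by
  by_cases hi : i ≤ X.dim
  · obtain ⟨u0, hu0, v0, hv0, huv⟩ := exists_dual_pair (C := C) (H := H) X (l := i) hi
    set Γ : C.A (X.prod X) := C.ext v0 z with hΓdef
    have hΓ : C.Deg X.dim Γ := by
      have h1 := ext_mem (C := C) (H := H) hv0 (show z ∈ C.gr X i from hz)
      rwa [sub_add_cancel] at h1
    have hcl : H.cl Γ = 0 := by
      rw [hΓdef, TheoryData.ext, map_mul, H.cl_pull, H.cl_pull, h0, map_zero, mul_zero]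
    have h1 := hL Γ hΓ hcl (2 * i) b hb
    have h2 : C.act (C.comp (C.comp (π (2 * i)) Γ) (π b)) u0 = 0 := by
      rw [h1, C.act_zero]
    rw [C.act_comp, C.act_comp] at h2
    have h3 : C.act Γ (C.act (π (2 * i)) u0) = z := by
      rw [hΓdef, act_ext (H := H)]
      have h4 : C.push (snd X X) (C.pull (fst X X) (v0 * C.act (π (2 * i)) u0)) = 1 := by
        rw [← huv]
        have hw : C.act (π (2 * i)) u0 ∈ C.gr X i := act_mem0 C (h.deg _) hu0
        apply deg_eq_of_cl (H := H)
        · have := C.mul_mem hv0 hw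
          rwa [sub_add_cancel] at this
        · have := C.mul_mem hv0 hu0
          rwa [sub_add_cancel] at this
        · rw [map_mul, map_mul, cl_act H]
          congr 1
          have h5 := H.cl_mem hu0
          exact h.act_self (2 * i) _ (by exact_mod_cast h5)
      rw [h4, one_mul]
    rwa [h3] at h2
  · rw [h.out b (by omega), C.act_zero]

/-- **(D) for `X` and all its decompositions.** -/
theorem murreD_of_lowers {π : ℕ → C.A (X.prod X)} (h : IsCK H X π) (hL : KernelLowers H π) :
    MurreD H X := by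
  intro π' h' i x
  have hL' := kernelLowers_all h hL h'
  rw [h'.mem_ckFil]
  constructor
  · rintro ⟨h1, h2⟩
    refine ⟨h1, ?_⟩
    have h3 := H.cl_mem (C := C) (X := X) h1
    have h4 := h'.act_self (2 * i) (H.cl x) (by exact_mod_cast h3)
    rw [← h4, ← cl_act, h2 (2 * i) (by omega), map_zero]
  · rintro ⟨h1, h2⟩
    exact ⟨h1, fun m hm => act_eq_zero_of_lowers h' hL' h1 h2 (by omega)⟩

/-- **The first half of (B) for `X`.** -/
theorem murreB0_of_lowers {π : ℕ → C.A (X.prod X)} (h : IsCK H X π) (hL : KernelLowers H π) :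
    MurreB0 H X := by
  rw [murreB0_iff]
  intro π' h' i j x hx hj
  have hL' := kernelLowers_all h hL h'
  have h1 : C.Deg i (C.act (π' j) x) := act_mem0 C (h'.deg j) hx
  have h2 : H.cl (C.act (π' j) x) = 0 := by
    rw [cl_act]
    have h3 := H.cl_mem (C := C) (X := X) hx
    exact h'.act_ne j _ _ (by omega) h3
  have h3 := act_eq_zero_of_lowers h' hL' h1 h2 (b := j) (by omega)
  rwa [← C.act_comp, h'.idem] at h3

lemma exists_list (l : List (C.A (X.prod X))) (hl : ∀ γ ∈ l, C.Deg X.dim γ ∧ H.cl γ = 0) :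
    ∃ l' : List (cor0 C X), l'.length = l.length ∧ (∀ x ∈ l', act0 H X x = 0) ∧
      ((l'.prod : cor0 C X) : Cor C X) = compList C X l := by
  induction l with
  | nil => exact ⟨[], rfl, by simp, rfl⟩
  | cons γ l ih =>
    obtain ⟨l', h1, h2, h3⟩ := ih (fun γ hγ => hl γ (List.mem_cons_of_mem _ hγ))
    obtain ⟨g1, g2⟩ := hl γ (by simp)
    refine ⟨l' ++ [⟨γ, g1⟩], ?_, ?_, ?_⟩
    · rw [List.length_append, h1]
      rfl
    · intro x hx
      rw [List.mem_append, List.mem_singleton] at hx
      rcases hx with hx | hx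
      · exact h2 x hx
      · rw [hx]
        exact (act0_eq_zero_iff _).2 g2
    · rw [List.prod_append, List.prod_singleton, compList, ← h3]
      rfl

/-- **Nilpotence.** -/
theorem nilpotentOfIndex_of_lowers {π : ℕ → C.A (X.prod X)} (h : IsCK H X π)
    (hL : KernelLowers H π) : NilpotentOfIndex H X (2 * X.dim + 1) := by
  intro l hlen hl
  obtain ⟨l', h1, h2, h3⟩ := exists_list l hl
  rw [← low_iff h] at hL
  have h4 := Low.prod_eq_zero (isSys h h) hL l' (by rw [h1, hlen]) h2
  rw [← h3, h4]
  rfl

/-- Consequences of (B0) for `X × X` in codimension `dim X`. -/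
theorem lowers_of_B0At {π : ℕ → C.A (X.prod X)} (h : IsCK H X π)
    (hB : MurreB0 H (X.prod X)) (hf : FaithfulOnParts H π) : KernelLowers H π := by
  apply lowers_of h _ hf
  intro γ hγ a b hab
  exact comp_zero_of_B0 hB h h hγ (by omega)

end Pool.Agent.Q28.MC
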