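import Pool.Agent.Q28.MC.DDefs
import Pool.Agent.Q28.MC.Main

/-!
# Transfer of conditions between decompositions, and phantoms
-/

open CategoryTheory AlgebraicGeometry

universe u v w

namespace Pool.Agent.Q28.MC

open Pool.Agent.H914 Pool.Agent.H914.VarClass Pool.Agent.H914.VarClass.Obj Pool.Agent.W492.BB
  Pool.Agent.W550.Corr Pool.Agent.TH133 Pool.Agent.Q28.MR

set_option linter.unusedSectionVars false

variable {k : Type u} [Field k] {𝒱 : VarClass k}

variable {C : TheoryData.{u, v, 0} 𝒱 ℚ} {K : Type w} [Field K] {H : WeilTheoryData.{u, v, w} C K}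
  [hC : IsChowProj C] [hH : IsWeilProj H] {X Y Z W : 𝒱.Obj}

include hC hH

lemma firstPart_deg {π : ℕ → C.A (X.prod X)} (h : IsCK H X π) (m : ℕ) :
    C.Deg X.dim (firstPart C π m) := by
  rw [firstPart]
  exact Submodule.sum_mem _ fun j _ => h.deg j

lemma act_firstPart_deg {π : ℕ → C.A (X.prod X)} (h : IsCK H X π) (m : ℕ) {i : ℕ} {x : C.A X}
    (hx : C.Deg i x) : C.Deg i (C.act (firstPart C π m) x) :=
  act_mem0 C (firstPart_deg h m) hx

lemma mem_ckFil_iff_act {π : ℕ → C.A (X.prod X)} (h : IsCK H X π) (i n : ℕ) (x : C.A X) :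
    x ∈ ckFil C π i n ↔ C.Deg i x ∧ C.act (firstPart C π (2 * i + 1 - n)) x = x := by
  constructor
  · rintro ⟨y, hy, rfl⟩
    refine ⟨act_firstPart_deg h _ hy, ?_⟩
    change C.act (firstPart C π _) (C.act (firstPart C π _) y) = C.act (firstPart C π _) y
    rw [← C.act_comp, comp_firstPart h]
  · rintro ⟨h1, h2⟩
    exact ⟨x, h1, h2⟩

/-- Classes in `F^1` are homologically trivial. -/
lemma cl_eq_zero_of_mem {π : ℕ → C.A (X.prod X)} (h : IsCK H X π) {i : ℕ} {x : C.A X}
    (hx : x ∈ ckFil C π i 1) : H.cl x = 0 := by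
  rw [h.mem_ckFil] at hx
  have h3 := H.cl_mem (C := C) (X := X) hx.1
  have h4 := h.act_self (2 * i) (H.cl x) (by exact_mod_cast h3)
  rw [← h4, ← cl_act, hx.2 (2 * i) (by omega), map_zero]

/-- The correspondence `(1 - P') ∘ P`, where `P` and `P'` are the projectors onto the first parts of
two decompositions. -/
noncomputable def gap (C : TheoryData.{u, v, 0} 𝒱 ℚ) {X : 𝒱.Obj} (π π' : ℕ → C.A (X.prod X))
    (m : ℕ) : C.A (X.prod X) := firstPart C π m - C.comp (firstPart C π m) (firstPart C π' m)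

lemma act_gap (π π' : ℕ → C.A (X.prod X)) (m : ℕ) (x : C.A X) :
    C.act (gap C π π' m) x =
      C.act (firstPart C π m) x - C.act (firstPart C π' m) (C.act (firstPart C π m) x) := by
  have h1 : C.act (gap C π π' m) x = C.act (firstPart C π m) x -
      C.act (C.comp (firstPart C π m) (firstPart C π' m)) x := by
    have h2 := C.act_add (X := X) (Y := X) (gap C π π' m)
      (C.comp (firstPart C π m) (firstPart C π' m)) x
    rw [gap, sub_add_cancel] at h2
    rw [gap, h2, add_sub_cancel_right]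
  rw [h1, C.act_comp]

lemma cl_gap {π π' : ℕ → C.A (X.prod X)} (h : IsCK H X π) (h' : IsCK H X π') (m : ℕ) :
    H.cl (gap C π π' m) = 0 := by
  have h1 : act0 H X (ps (sys h) m - ps (sys h') m * ps (sys h) m) = 0 := by
    rw [map_sub, map_mul, (isSys h h').map_ps, (isSys h h).map_ps, ← (isSys h h).map_ps m,
      ← map_mul, (isSys h h).ps_idem, sub_self]
  have h2 := (act0_eq_zero_iff _).1 h1
  have h3 : ((ps (sys h) m - ps (sys h') m * ps (sys h) m : cor0 C X) : Cor C X) =
      gap C π π' m := by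
    rw [gap, ← ps_val h m, ← ps_val h' m]
    rfl
  rw [← h3]
  exact h2

lemma gap_deg {π π' : ℕ → C.A (X.prod X)} (h : IsCK H X π) (h' : IsCK H X π') (m : ℕ) :
    C.Deg X.dim (gap C π π' m) :=
  Submodule.sub_mem _ (firstPart_deg h m) (comp_mem0 C (firstPart_deg h m) (firstPart_deg h' m))

/-- **Transfer of (D).** -/
theorem satisfiesDAt_transfer {i : ℕ} (hN : NoIdempotentActionAt H X i)
    {π π' : ℕ → C.A (X.prod X)} (h : IsCK H X π) (h' : IsCK H X π') (hD : SatisfiesDAt H π i) :
    SatisfiesDAt H π' i := by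
  have hP : ∀ y : C.A X, C.Deg i y → H.cl y = 0 → C.act (firstPart C π (2 * i)) y = y := by
    intro y hy h0
    have h1 := hD y hy h0
    rw [mem_ckFil_iff_act h] at h1
    exact h1.2
  have hcl : ∀ y : C.A X, C.Deg i y → H.cl (C.act (firstPart C π (2 * i)) y) = 0 := by
    intro y hy
    apply cl_eq_zero_of_mem h (i := i)
    rw [mem_ckFil_iff_act h]
    refine ⟨act_firstPart_deg h _ hy, ?_⟩
    change C.act (firstPart C π (2 * i)) _ = _
    rw [← C.act_comp, comp_firstPart h]
  have key : ∀ x : C.A X, C.Deg i x → C.act (gap C π π' (2 * i)) x = 0 := by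
    apply hN _ (gap_deg h h' _) (cl_gap h h' _)
    intro x hx
    have h1 := act_gap (C := C) (H := H) π π' (2 * i) x
    have h2 : C.act (firstPart C π (2 * i)) (C.act (gap C π π' (2 * i)) x) =
        C.act (gap C π π' (2 * i)) x := by
      apply hP
      · rw [h1]
        exact Submodule.sub_mem _ (act_firstPart_deg h _ hx)
          (act_firstPart_deg h' _ (act_firstPart_deg h _ hx))
      · rw [h1, map_sub, hcl x hx, cl_act (H := H) (firstPart C π' (2 * i)), hcl x hx,
          TheoryData.act_map_zero, sub_zero]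
    rw [act_gap (C := C) (H := H) π π' (2 * i) (C.act (gap C π π' (2 * i)) x), h2]
    have h3 : C.act (firstPart C π' (2 * i)) (C.act (gap C π π' (2 * i)) x) = 0 := by
      have h4 : ∀ y z : C.A X, C.act (firstPart C π' (2 * i)) (y - z) =
          C.act (firstPart C π' (2 * i)) y - C.act (firstPart C π' (2 * i)) z :=
        fun y z => map_sub (C.actL (firstPart C π' (2 * i))) y z
      rw [h1, h4, ← C.act_comp (firstPart C π' (2 * i)) (firstPart C π' (2 * i)),
        comp_firstPart h', sub_self]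
    rw [h3, sub_zero]
  intro y hy h0
  rw [mem_ckFil_iff_act h']
  refine ⟨hy, ?_⟩
  have h1 := key y hy
  rw [act_gap (C := C) (H := H), hP y hy h0, sub_eq_zero] at h1
  exact h1.symm

lemma act_map_sub' (Γ : C.A (X.prod Y)) (y z : C.A X) : C.act Γ (y - z) = C.act Γ y - C.act Γ z :=
  map_sub (C.actL Γ) y z

/-- **Transfer of the first half of (B).** -/
theorem b0_transfer {i : ℕ} (hN : NoIdempotentActionAt H X i)
    {π π' : ℕ → C.A (X.prod X)} (h : IsCK H X π) (h' : IsCK H X π')
    (hB : ckFil C π i 0 = C.gr X i) : ckFil C π' i 0 = C.gr X i := by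
  have hP : ∀ y : C.A X, C.Deg i y → C.act (firstPart C π (2 * i + 1)) y = y := by
    intro y hy
    have h1 : y ∈ ckFil C π i 0 := by rw [hB]; exact hy
    rw [mem_ckFil_iff_act h] at h1
    exact h1.2
  have hg : ∀ x : C.A X, C.Deg i x → C.act (gap C π π' (2 * i + 1)) x =
      x - C.act (firstPart C π' (2 * i + 1)) x := by
    intro x hx
    rw [act_gap (C := C) (H := H), hP x hx]
  have key : ∀ x : C.A X, C.Deg i x → C.act (gap C π π' (2 * i + 1)) x = 0 := by
    apply hN _ (gap_deg h h' _) (cl_gap h h' _)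
    intro x hx
    rw [hg x hx, hg _ (Submodule.sub_mem _ hx (act_firstPart_deg h' _ hx)),
      act_map_sub' (C := C) (H := H), ← C.act_comp, comp_firstPart h', sub_self, sub_zero]
  ext x
  rw [mem_ckFil_iff_act h']
  refine ⟨fun h1 => h1.1, fun hx => ⟨hx, ?_⟩⟩
  have h1 := key x hx
  rw [hg x hx, sub_eq_zero] at h1
  exact h1.symm

/-- **Transfer of the second half of (B).** -/
theorem b1_transfer {i : ℕ} (hN : NoIdempotentActionAt H X i)
    {π π' : ℕ → C.A (X.prod X)} (h : IsCK H X π) (h' : IsCK H X π')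
    (hB : ckFil C π i (i + 1) = ⊥) : ckFil C π' i (i + 1) = ⊥ := by
  have e : 2 * i + 1 - (i + 1) = i := by omega
  have hP : ∀ y : C.A X, C.Deg i y → C.act (firstPart C π i) y = 0 := by
    intro y hy
    have h1 : C.act (firstPart C π i) y ∈ ckFil C π i (i + 1) := by
      rw [mem_ckFil_iff_act h, e]
      exact ⟨act_firstPart_deg h _ hy, by rw [← C.act_comp, comp_firstPart h]⟩
    rw [hB] at h1
    exact (Submodule.mem_bot _).1 h1
  have hg : ∀ x : C.A X, C.Deg i x → C.act (gap C π' π i) x = C.act (firstPart C π' i) x := by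
    intro x hx
    rw [act_gap (C := C) (H := H), hP _ (act_firstPart_deg h' _ hx), sub_zero]
  have key : ∀ x : C.A X, C.Deg i x → C.act (gap C π' π i) x = 0 := by
    apply hN _ (gap_deg h' h _) (cl_gap h' h _)
    intro x hx
    rw [hg x hx, hg _ (act_firstPart_deg h' _ hx), ← C.act_comp, comp_firstPart h']
  rw [eq_bot_iff]
  intro x hx
  rw [mem_ckFil_iff_act h', e] at hx
  rw [Submodule.mem_bot, ← hx.2, ← hg x hx.1, key x hx.1]

/-- Moving a phantom. -/
lemma isCK_move {π : ℕ → C.A (X.prod X)} (h : IsCK H X π) {a t : ℕ} (ha : a ≤ 2 * X.dim)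
    (ht : t ≤ 2 * X.dim) (hat : a ≠ t) {q : C.A (X.prod X)} (hq : C.Deg X.dim q)
    (hqq : C.comp q q = q) (h0 : H.cl q = 0) (h1 : C.comp q (π a) = q) (h2 : C.comp (π a) q = q) :
    ∃ π', IsCK H X π' ∧ π' t = π t + q ∧ π' a = π a - q ∧ ∀ i, i ≠ a → i ≠ t → π' i = π i := by
  have hm := (isSys h h).move (s := a) (t := t) (q := (⟨q, hq⟩ : cor0 C X)) ha ht hat
    (Subtype.ext hqq) ((act0_eq_zero_iff _).2 h0) (Subtype.ext h1) (Subtype.ext h2)
  refine ⟨_, isCK_of_isSys h hm, ?_, ?_, ?_⟩
  · rw [if_neg (Ne.symm hat), if_pos rfl]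
    rfl
  · rw [if_pos rfl]
    rfl
  · intro i hi hi'
    rw [if_neg hi, if_neg hi']
    rfl

/-- The value of a phantom. -/
lemma phantom_act {π : ℕ → C.A (X.prod X)} {a : ℕ} {q : C.A (X.prod X)}
    (hqq : C.comp q q = q) (h1 : C.comp q (π a) = q) (x : C.A X) :
    C.act q (C.act q x) = C.act q x ∧ C.act (π a) (C.act q x) = C.act q x := by
  constructor
  · rw [← C.act_comp, hqq]
  · rw [← C.act_comp, h1]

lemma phantoms_of_homogeneous {π : ℕ → C.A (X.prod X)} (h : IsCK H X π)
    (hq : ∀ (a : ℕ) (q : C.A (X.prod X)), a ≤ 2 * X.dim → C.Deg X.dim q → C.comp q q = q →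
      H.cl q = 0 → C.comp q (π a) = q → C.comp (π a) q = q → ∀ i ≤ X.dim, ∀ x : C.A X,
      C.Deg i x → C.act q x = 0) : PhantomsActTrivially H π := by
  intro a q hqd hqq h0 h1 h2 x
  by_cases ha : a ≤ 2 * X.dim
  · have h3 : C.actL q = (0 : C.A X →ₗ[ℚ] C.A X) := by
      apply ext_grC (C := C)
      intro i y hy
      rw [TheoryData.actL_apply, LinearMap.zero_apply]
      by_cases hi : i ≤ X.dim
      · exact hq a q ha hqd hqq h0 h1 h2 i hi y hy
      · rw [hC.gr_top X i y hy (by omega)]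
        exact C.act_map_zero q
    exact congrArg (fun g : C.A X →ₗ[ℚ] C.A X => g x) h3
  · rw [← h1, h.out a (by omega), comp_zero, C.act_zero]

/-- **(D) for all decompositions implies that phantoms act trivially.** -/
theorem phantoms_of_D (hD : MurreD H X) {π : ℕ → C.A (X.prod X)} (h : IsCK H X π) :
    PhantomsActTrivially H π := by
  apply phantoms_of_homogeneous h
  intro a q ha hqd hqq h0 h1 h2 i hi x hx
  obtain ⟨g1, g2⟩ := phantom_act (C := C) (H := H) hqq h1 x
  have g3 : C.Deg i (C.act q x) := act_mem0 C hqd hx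
  have g4 : H.cl (C.act q x) = 0 := by rw [cl_act, h0, TheoryData.act_zero]
  by_cases hai : 2 * i ≤ a
  · have h3 := (hD π h i (C.act q x)).2 ⟨g3, g4⟩
    rw [h.mem_ckFil] at h3
    rw [← g2]
    exact h3.2 a (by omega)
  · obtain ⟨π', h', k1, k2, k3⟩ := isCK_move h ha (t := 2 * i) (by omega) (by omega) hqd hqq h0 h1 h2
    have h3 := (hD π' h' i (C.act q x)).2 ⟨g3, g4⟩
    rw [h'.mem_ckFil] at h3
    have h4 := h3.2 (2 * i) (by omega)
    have h5 : C.act (π (2 * i)) (C.act q x) = 0 := by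
      rw [← g2, ← C.act_comp, h.orth _ _ (by omega), C.act_zero]
    rw [k1, C.act_add, h5, g1, zero_add] at h4
    exact h4

/-- **(B) for all decompositions implies that phantoms act trivially.** -/
theorem phantoms_of_B (hB0 : MurreB0 H X) (hB1 : MurreB1 H X) {π : ℕ → C.A (X.prod X)}
    (h : IsCK H X π) : PhantomsActTrivially H π := by
  have c0 : ∀ π', IsCK H X π' → ∀ (i j : ℕ) (x : C.A X), C.Deg i x → 2 * i < j →
      C.act (π' j) x = 0 := fun π' h' i j x hx hj => (murreB0_iff X).1 hB0 π' h' i j x hx hj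
  have c1 : ∀ π', IsCK H X π' → ∀ (i j : ℕ) (x : C.A X), C.Deg i x → j < i →
      C.act (π' j) x = 0 := by
    intro π' h' i j x hx hj
    have h1 : C.act (π' j) x ∈ ckFil C π' i (i + 1) := by
      rw [h'.mem_ckFil]
      refine ⟨act_mem0 C (h'.deg j) hx, fun m hm => ?_⟩
      rw [← C.act_comp, h'.orth _ _ (by omega), C.act_zero]
    rw [hB1 π' h' i] at h1
    exact (Submodule.mem_bot _).1 h1
  by_cases hX : X.dim = 0
  · intro a q hqd hqq h0 _ _ x
    rw [noPhantom_dim_zero (H := H) hX q hqd hqq h0, C.act_zero]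
  apply phantoms_of_homogeneous h
  intro a q ha hqd hqq h0 h1 h2 i hi x hx
  obtain ⟨g1, g2⟩ := phantom_act (C := C) (H := H) hqq h1 x
  have g3 : C.Deg i (C.act q x) := act_mem0 C hqd hx
  rcases Nat.eq_zero_or_pos i with hi0 | hi0
  · -- the first half of (B), place `2 dim X`
    by_cases hat : a = 2 * X.dim
    · rw [← g2]
      exact c0 π h i a _ g3 (by omega)
    · obtain ⟨π', h', k1, k2, k3⟩ := isCK_move h ha (t := 2 * X.dim) le_rfl hat hqd hqq h0 h1 h2
      have h4 := c0 π' h' i (2 * X.dim) _ g3 (by omega)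
      have h5 : C.act (π (2 * X.dim)) (C.act q x) = 0 := by
        rw [← g2, ← C.act_comp, h.orth _ _ hat, C.act_zero]
      rw [k1, C.act_add, h5, g1, zero_add] at h4
      exact h4
  · -- the second half of (B), place `0`
    by_cases hat : a = 0
    · rw [← g2]
      exact c1 π h i a _ g3 (by omega)
    · obtain ⟨π', h', k1, k2, k3⟩ := isCK_move h ha (t := 0) (by omega) hat hqd hqq h0 h1 h2
      have h4 := c1 π' h' i 0 _ g3 (by omega)
      have h5 : C.act (π 0) (C.act q x) = 0 := by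
        rw [← g2, ← C.act_comp, h.orth _ _ hat, C.act_zero]
      rw [k1, C.act_add, h5, g1, zero_add] at h4
      exact h4

end Pool.Agent.Q28.MC
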