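import Mathlib

/-!
# Systems of orthogonal idempotents in a ring, triangularity and phantom idempotents

`f : R → S` is a ring homomorphism, `p i` are elements of `S`. A system is a family `e 0, …, e N` of
orthogonal idempotents of `R` with sum `1` and `f (e i) = p i`.
-/

namespace Pool.Agent.Q28.MC

open Finset

variable {R S : Type*} [Ring R] [Ring S] {f : R →+* S} {p : ℕ → S} {N : ℕ}

/-- A system of orthogonal idempotents `e 0, …, e N` with sum `1` lifting the `p i`. -/
structure IsSys (f : R →+* S) (p : ℕ → S) (N : ℕ) (e : ℕ → R) : Prop where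
  out : ∀ i, N < i → e i = 0
  mul : ∀ i j, e i * e j = if i = j then e i else 0
  sum : ∑ i ∈ range (N + 1), e i = 1
  map : ∀ i, f (e i) = p i

/-- The partial sum `e 0 + ⋯ + e (n - 1)`. -/
def ps (e : ℕ → R) (n : ℕ) : R := ∑ i ∈ range n, e i

/-- No element of the ring raises the degrees: `e b * x * e a = 0` for `a < b`. -/
def NoRaise (e : ℕ → R) : Prop := ∀ (x : R) (a b : ℕ), a < b → e b * x * e a = 0

/-- Idempotents in the kernel of `f` vanish. -/
def NoPhantom (f : R →+* S) : Prop := ∀ q : R, q * q = q → f q = 0 → q = 0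

namespace IsSys

variable {e e' : ℕ → R} (h : IsSys f p N e)

include h

lemma idem (i : ℕ) : e i * e i = e i := by rw [h.mul, if_pos rfl]

lemma orth {i j : ℕ} (hij : i ≠ j) : e i * e j = 0 := by rw [h.mul, if_neg hij]

lemma ps_mul (n i : ℕ) : ps e n * e i = if i < n then e i else 0 := by
  rw [ps, sum_mul]
  simp_rw [h.mul]
  split_ifs with hi
  · rw [sum_eq_single i]
    · rw [if_pos rfl]
    · intro j _ hj
      rw [if_neg hj]
    · intro h1
      exact absurd (mem_range.2 hi) h1
  · apply sum_eq_zero
    intro j hj
    rw [mem_range] at hj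
    rw [if_neg (by omega)]

lemma mul_ps (n i : ℕ) : e i * ps e n = if i < n then e i else 0 := by
  rw [ps, mul_sum]
  simp_rw [h.mul]
  split_ifs with hi
  · rw [sum_eq_single i]
    · rw [if_pos rfl]
    · intro j _ hj
      rw [if_neg (Ne.symm hj)]
    · intro h1
      exact absurd (mem_range.2 hi) h1
  · apply sum_eq_zero
    intro j hj
    rw [mem_range] at hj
    rw [if_neg (by omega)]

lemma ps_ps {m n : ℕ} (hmn : m ≤ n) : ps e n * ps e m = ps e m := by
  conv_lhs => rw [ps, ps, mul_sum]
  rw [ps]
  apply sum_congr rfl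
  intro i hi
  rw [mem_range] at hi
  have := h.ps_mul n i
  rw [ps] at this
  rw [this, if_pos (by omega)]

lemma ps_idem (n : ℕ) : ps e n * ps e n = ps e n := h.ps_ps le_rfl

lemma ps_top {n : ℕ} (hn : N + 1 ≤ n) : ps e n = 1 := by
  rw [ps, ← h.sum]
  symm
  apply sum_subset
  · intro i hi
    rw [mem_range] at *
    omega
  · intro i _ hi
    rw [mem_range] at hi
    exact h.out i (by omega)

lemma eq_sum (x : R) : x = ∑ i ∈ range (N + 1), ∑ j ∈ range (N + 1), e i * x * e j := by
  simp_rw [← mul_sum, h.sum, mul_one, ← sum_mul, h.sum, one_mul]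

/-- An element all of whose matrix entries vanish is zero. -/
lemma eq_zero {x : R} (hx : ∀ i j, e i * x * e j = 0) : x = 0 := by
  rw [h.eq_sum x]
  exact sum_eq_zero fun i _ => sum_eq_zero fun j _ => hx i j

lemma one_sub_mul (n i : ℕ) : (1 - ps e n) * e i = if i < n then 0 else e i := by
  rw [sub_mul, one_mul, h.ps_mul]
  split_ifs
  · exact sub_self _
  · exact sub_zero _

/-- Without raising elements the partial sums are invariant. -/
lemma inv (hr : NoRaise e) (x : R) (n : ℕ) : (1 - ps e n) * x * ps e n = 0 := by
  apply h.eq_zero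
  intro i j
  have h1 : e i * (1 - ps e n) = if i < n then 0 else e i := by
    rw [mul_sub, mul_one, h.mul_ps]
    split_ifs
    · exact sub_self _
    · exact sub_zero _
  have h2 : e i * ((1 - ps e n) * x * ps e n) * e j =
      (e i * (1 - ps e n)) * x * (ps e n * e j) := by simp only [mul_assoc]
  rw [h2, h1, h.ps_mul]
  by_cases hi : i < n
  · rw [if_pos hi, zero_mul, zero_mul]
  · by_cases hj : j < n
    · rw [if_neg hi, if_pos hj]
      exact hr x j i (by omega)
    · rw [if_neg hj, mul_zero]

lemma mul_ps_eq (hr : NoRaise e) (x : R) (n : ℕ) : ps e n * x * ps e n = x * ps e n := by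
  have h1 := h.inv hr x n
  rw [sub_mul, sub_mul, one_mul, sub_eq_zero] at h1
  exact h1.symm

lemma map_ps (n : ℕ) : f (ps e n) = ∑ i ∈ range n, p i := by
  rw [ps, map_sum]
  exact sum_congr rfl fun i _ => h.map i

/-- **Independence of the partial sums.** -/
theorem ps_eq (hr : NoRaise e) (hq : NoPhantom f) (h' : IsSys f p N e') (n : ℕ) :
    ps e n * ps e' n = ps e' n ∧ ps e' n * ps e n = ps e n := by
  have hf : f (ps e n) = f (ps e' n) := by rw [h.map_ps, h'.map_ps]
  constructor
  · have h1 : (1 - ps e n) * ps e' n = 0 := by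
      apply hq
      · have h2 : (1 - ps e n) * ps e' n * (1 - ps e n) = (1 - ps e n) * ps e' n := by
          rw [mul_sub, mul_one, h.inv hr, sub_zero]
        calc (1 - ps e n) * ps e' n * ((1 - ps e n) * ps e' n)
            = ((1 - ps e n) * ps e' n * (1 - ps e n)) * ps e' n := by simp only [mul_assoc]
          _ = _ := by rw [h2, mul_assoc, h'.ps_idem]
      · rw [map_mul, map_sub, map_one, ← hf, sub_mul, one_mul, ← map_mul, h.ps_idem, sub_self]
    rw [sub_mul, one_mul, sub_eq_zero] at h1
    exact h1.symm
  · have h1 : (1 - ps e' n) * ps e n = 0 := by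
      apply hq
      · have h2 : ps e n * (1 - ps e' n) * ps e n = (1 - ps e' n) * ps e n := h.mul_ps_eq hr _ n
        calc (1 - ps e' n) * ps e n * ((1 - ps e' n) * ps e n)
            = (1 - ps e' n) * (ps e n * (1 - ps e' n) * ps e n) := by simp only [mul_assoc]
          _ = ((1 - ps e' n) * (1 - ps e' n)) * ps e n := by rw [h2, mul_assoc]
          _ = _ := by
            congr 1
            rw [mul_sub, mul_one, sub_mul, one_mul, h'.ps_idem, sub_self, sub_zero]
      · rw [map_mul, map_sub, map_one, hf, sub_mul, one_mul, ← map_mul, h'.ps_idem, sub_self]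
    rw [sub_mul, one_mul, sub_eq_zero] at h1
    exact h1.symm

/-- Conjugation. -/
lemma conj {u v : R} (huv : u * v = 1) (hvu : v * u = 1) (hf : f u = 1) :
    IsSys f p N (fun i => u * e i * v) where
  out i hi := by rw [h.out i hi, mul_zero, zero_mul]
  mul i j := by
    have h1 : u * e i * v * (u * e j * v) = u * (e i * e j) * v := by
      calc u * e i * v * (u * e j * v) = u * e i * (v * u) * e j * v := by simp only [mul_assoc]
        _ = _ := by rw [hvu, mul_one, mul_assoc u]
    rw [h1, h.mul]
    split_ifs
    · rfl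
    · rw [mul_zero, zero_mul]
  sum := by rw [← sum_mul, ← mul_sum, h.sum, mul_one, huv]
  map i := by
    have hv : f v = 1 := by
      have := congrArg f huv
      rwa [map_mul, hf, one_mul, map_one] at this
    rw [map_mul, map_mul, hf, hv, one_mul, mul_one, h.map]

/-- Moving a phantom idempotent from one place to another. -/
lemma move {s t : ℕ} (hs : s ≤ N) (ht : t ≤ N) (hst : s ≠ t) {q : R} (hq : q * q = q)
    (hf : f q = 0) (h1 : e s * q = q) (h2 : q * e s = q) :
    IsSys f p N (fun i => if i = s then e s - q else if i = t then e t + q else e i) := by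
  have h3 : ∀ i, i ≠ s → e i * q = 0 := fun i hi => by
    rw [← h1, ← mul_assoc, h.orth hi, zero_mul]
  have h4 : ∀ i, i ≠ s → q * e i = 0 := fun i hi => by
    rw [← h2, mul_assoc, h.orth hi.symm, mul_zero]
  constructor
  · intro i hi
    rw [if_neg (by omega), if_neg (by omega), h.out i hi]
  · intro i j
    by_cases hi : i = s
    · subst hi
      rw [if_pos rfl]
      by_cases hj : j = i
      · subst hj
        rw [if_pos rfl, if_pos rfl, sub_mul, mul_sub, mul_sub, h.idem, h1, h2, hq, sub_self,
          sub_zero]
      · rw [if_neg hj, if_neg (Ne.symm hj)]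
        by_cases hj2 : j = t
        · subst hj2
          rw [if_pos rfl, sub_mul, mul_add, mul_add, h.orth (Ne.symm hj), h1, h4 j hj, hq, zero_add,
            sub_self]
        · rw [if_neg hj2, sub_mul, h.orth (Ne.symm hj), h4 j hj, sub_zero]
    · rw [if_neg hi]
      by_cases hi2 : i = t
      · subst hi2
        rw [if_pos rfl]
        by_cases hj : j = s
        · subst hj
          rw [if_pos rfl, if_neg (Ne.symm hst), add_mul, mul_sub, mul_sub, h.orth hi, h3 i hi, h2, hq,
            sub_zero, zero_add, sub_self]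
        · rw [if_neg hj]
          by_cases hj2 : j = i
          · subst hj2
            rw [if_pos rfl, if_pos rfl, add_mul, mul_add, mul_add, h.idem, h3 j hj, h4 j hj, hq,
              add_zero, zero_add]
          · rw [if_neg hj2, if_neg (Ne.symm hj2), add_mul, h.orth (Ne.symm hj2), h4 j hj, add_zero]
      · rw [if_neg hi2]
        by_cases hj : j = s
        · subst hj
          rw [if_pos rfl, if_neg hi, mul_sub, h.orth hi, h3 i hi, sub_zero]
        · rw [if_neg hj]
          by_cases hj2 : j = t
          · subst hj2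
            rw [if_pos rfl, if_neg hi2, mul_add, h.orth hi2, h3 i hi, add_zero]
          · rw [if_neg hj2, h.mul]
  · have e1 : ∀ i, (if i = s then e s - q else if i = t then e t + q else e i) =
        e i + ((if i = t then q else 0) - (if i = s then q else 0)) := by
      intro i
      by_cases hi : i = s
      · subst hi
        rw [if_pos rfl, if_neg hst, if_pos rfl, zero_sub, sub_eq_add_neg]
      · rw [if_neg hi, if_neg hi, sub_zero]
        by_cases hi2 : i = t
        · subst hi2
          rw [if_pos rfl, if_pos rfl]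
        · rw [if_neg hi2, if_neg hi2, add_zero]
    simp_rw [e1]
    rw [sum_add_distrib, sum_sub_distrib, h.sum, sum_ite_eq', sum_ite_eq', if_pos, if_pos, sub_self,
      add_zero]
    · exact mem_range.2 (by omega)
    · exact mem_range.2 (by omega)
  · intro i
    by_cases hi : i = s
    · subst hi
      rw [if_pos rfl, map_sub, hf, sub_zero, h.map]
    · rw [if_neg hi]
      by_cases hi2 : i = t
      · subst hi2
        rw [if_pos rfl, map_add, hf, add_zero, h.map]
      · rw [if_neg hi2, h.map]

/-- Strictly triangular elements are nilpotent. -/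
lemma pow_eq_zero {n : R} (hn : ∀ a b, a ≤ b → e b * n * e a = 0) : n ^ (N + 1) = 0 := by
  have key : ∀ k a b : ℕ, a < b + k → e b * n ^ k * e a = 0 := by
    intro k
    induction k with
    | zero =>
      intro a b hab
      rw [pow_zero, mul_one, h.orth (by omega)]
    | succ k ih =>
      intro a b hab
      rw [pow_succ]
      have h1 : e b * (n ^ k * n) * e a = ∑ c ∈ range (N + 1),
          (e b * n ^ k * e c) * (e c * n * e a) := by
        have h2 : e b * (n ^ k * n) * e a = e b * n ^ k * (∑ c ∈ range (N + 1), e c) * n * e a := by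
          rw [h.sum]; simp only [mul_assoc, one_mul]
        rw [h2, mul_sum, sum_mul, sum_mul]
        apply sum_congr rfl
        intro c _
        calc e b * n ^ k * e c * n * e a = e b * n ^ k * (e c * e c) * n * e a := by rw [h.idem]
          _ = _ := by simp only [mul_assoc]
      rw [h1]
      apply sum_eq_zero
      intro c _
      by_cases hc : c < b + k
      · rw [ih c b hc, zero_mul]
      · rw [hn a c (by omega), mul_zero]
  apply h.eq_zero
  intro i j
  by_cases hj : j ≤ N
  · exact key _ _ _ (by omega)
  · rw [h.out j (by omega), mul_zero]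

/-- **All systems are conjugate by strictly triangular unipotent elements.** -/
theorem exists_conj (hr : NoRaise e) (hq : NoPhantom f) (h' : IsSys f p N e') :
    ∃ n : R, (∀ a b, a ≤ b → e b * n * e a = 0) ∧ (∀ i, e' i * (1 + n) = (1 + n) * e i) ∧
      f n = 0 := by
  set u : R := ∑ i ∈ range (N + 1), e' i * e i with hu
  have hue : ∀ i, u * e i = e' i * e i := by
    intro i
    rw [hu, sum_mul]
    by_cases hi : i ≤ N
    · rw [sum_eq_single i]
      · rw [mul_assoc, h.idem]
      · intro j _ hj
        rw [mul_assoc, h.orth hj, mul_zero]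
      · intro h1
        exact absurd (mem_range.2 (by omega)) h1
    · rw [h.out i (by omega), mul_zero]
      exact sum_eq_zero fun j _ => mul_zero _
  have heu : ∀ i, e' i * u = e' i * e i := by
    intro i
    rw [hu, mul_sum]
    by_cases hi : i ≤ N
    · rw [sum_eq_single i]
      · rw [← mul_assoc, h'.idem]
      · intro j _ hj
        rw [← mul_assoc, h'.orth (Ne.symm hj), zero_mul]
      · intro h1
        exact absurd (mem_range.2 (by omega)) h1
    · rw [h'.out i (by omega), zero_mul]
      exact sum_eq_zero fun j _ => zero_mul _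
  refine ⟨u - 1, fun a b hab => ?_, fun i => ?_, ?_⟩
  · have h1 := h.ps_eq hr hq h'
    have h2 : ps e' (a + 1) * e a = e a := by
      have h3 : ps e (a + 1) * e a = e a := by rw [h.ps_mul, if_pos (by omega)]
      rw [← h3, ← mul_assoc, (h1 (a + 1)).2]
    have h4 : e' a * e a = e a - ps e' a * e a := by
      have h5 : ps e' (a + 1) = ps e' a + e' a := by rw [ps, sum_range_succ]; rfl
      rw [h5, add_mul] at h2
      rw [eq_sub_iff_add_eq, add_comm]
      exact h2
    have h6 : e b * ps e' a = 0 := by
      rw [← (h1 a).1, ← mul_assoc, h.mul_ps, if_neg (by omega), zero_mul]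
    rw [mul_sub, sub_mul, mul_one, mul_assoc, hue, h4, mul_sub, ← mul_assoc, h6, zero_mul, sub_zero,
      sub_self]
  · rw [add_sub_cancel, heu, hue]
  · rw [map_sub, map_one, sub_eq_zero, hu, map_sum, ← map_one f, ← h.sum, map_sum]
    apply sum_congr rfl
    intro i _
    rw [map_mul, h'.map, ← h.map, ← map_mul, h.idem]

/-- The unit given by a strictly triangular element. -/
lemma exists_inv {n : R} (hn : ∀ a b, a ≤ b → e b * n * e a = 0) :
    ∃ v, (1 + n) * v = 1 ∧ v * (1 + n) = 1 := by
  have h1 : IsNilpotent n := ⟨N + 1, h.pow_eq_zero hn⟩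
  obtain ⟨w, hw⟩ := h1.isUnit_one_add
  exact ⟨w⁻¹.1, by rw [← hw]; exact w.mul_inv, by rw [← hw]; exact w.inv_mul⟩

/-- The absence of raising elements does not depend on the system. -/
lemma noRaise_of (hr : NoRaise e) (hq : NoPhantom f) (h' : IsSys f p N e') : NoRaise e' := by
  obtain ⟨n, hn, hc, -⟩ := h.exists_conj hr hq h'
  obtain ⟨v, hv, hv'⟩ := h.exists_inv hn
  have h1 : ∀ i, e' i = (1 + n) * e i * v := by
    intro i
    rw [← hc, mul_assoc, hv, mul_one]
  intro x a b hab
  rw [h1, h1]
  calc (1 + n) * e b * v * x * ((1 + n) * e a * v)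
      = (1 + n) * (e b * (v * x * (1 + n)) * e a) * v := by simp only [mul_assoc]
    _ = 0 := by rw [hr _ a b hab, mul_zero, zero_mul]

/-- **Independence implies the absence of raising elements.** -/
theorem noRaise_of_indep (hp : ∀ (x : R) (i j : ℕ), i ≠ j → f (e j * x * e i) = 0)
    (hi : ∀ e', IsSys f p N e' → ∀ n, ps e n * ps e' n = ps e' n) : NoRaise e := by
  intro x a b hab
  set n : R := e b * x * e a with hn
  have h1 : n * n = 0 := by
    rw [hn]
    calc e b * x * e a * (e b * x * e a) = e b * x * (e a * e b) * x * e a := by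
          simp only [mul_assoc]
      _ = 0 := by rw [h.orth (by omega), mul_zero, zero_mul, zero_mul]
  have huv : (1 + n) * (1 - n) = 1 := by
    rw [mul_sub, mul_one, add_mul, one_mul, h1]; abel
  have hvu : (1 - n) * (1 + n) = 1 := by
    rw [mul_add, mul_one, sub_mul, one_mul, h1]; abel
  have hf : f (1 + n) = 1 := by rw [map_add, map_one, hp x a b (by omega), add_zero]
  have h2 := hi _ (h.conj huv hvu hf) (a + 1)
  have h3 : ps (fun i => (1 + n) * e i * (1 - n)) (a + 1) = ps e (a + 1) + n := by
    have h4 : ps (fun i => (1 + n) * e i * (1 - n)) (a + 1) =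
        (1 + n) * ps e (a + 1) * (1 - n) := by
      rw [ps, ps, mul_sum, sum_mul]
    have h5 : n * ps e (a + 1) = n := by
      rw [hn, mul_assoc, h.mul_ps, if_pos (by omega)]
    have h6 : ps e (a + 1) * n = 0 := by
      rw [hn, mul_assoc (e b), ← mul_assoc, h.ps_mul, if_neg (by omega), zero_mul]
    rw [h4, add_mul, one_mul, h5, mul_sub, mul_one, add_mul, h6, h1, add_zero, sub_zero]
  have h6 : ps e (a + 1) * n = 0 := by
    rw [hn, mul_assoc (e b), ← mul_assoc, h.ps_mul, if_neg (by omega), zero_mul]
  rw [h3, mul_add, h.ps_idem, h6, add_zero] at h2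
  exact (add_eq_left.1 h2.symm)

/-- A phantom idempotent vanishes if its diagonal entries vanish. -/
lemma eq_zero_of_diag (hr : NoRaise e) {q : R} (hq : q * q = q) (hd : ∀ a, e a * q * e a = 0) :
    q = 0 := by
  have h1 : ∀ a b, a ≤ b → e b * q * e a = 0 := by
    intro a b hab
    rcases eq_or_lt_of_le hab with h2 | h2
    · subst h2
      exact hd a
    · exact hr q a b h2
  have h2 := h.pow_eq_zero h1
  have h3 : ∀ k : ℕ, q ^ (k + 1) = q := by
    intro k
    induction k with
    | zero => rw [zero_add, pow_one]
    | succ k ih => rw [pow_succ, ih, hq]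
  rw [h3] at h2
  exact h2

/-- The diagonal entries of an idempotent are idempotents. -/
lemma diag_idem (hr : NoRaise e) {q : R} (hq : q * q = q) (a : ℕ) :
    (e a * q * e a) * (e a * q * e a) = e a * q * e a := by
  have h1 : e a * q * e a = ∑ c ∈ range (N + 1), (e a * q * e c) * (e c * q * e a) := by
    have h2 : e a * q * e a = e a * q * (∑ c ∈ range (N + 1), e c) * q * e a := by
      rw [h.sum, mul_one, mul_assoc (e a) q q, hq]
    rw [h2, mul_sum, sum_mul, sum_mul]
    apply sum_congr rfl
    intro c _
    calc e a * q * e c * q * e a = e a * q * (e c * e c) * q * e a := by rw [h.idem]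
      _ = _ := by simp only [mul_assoc]
  by_cases ha : a ≤ N
  · conv_rhs => rw [h1]
    rw [sum_eq_single a]
    · intro c _ hc
      rcases lt_or_gt_of_ne hc with h2 | h2
      · rw [hr q c a h2, zero_mul]
      · rw [hr q a c h2, mul_zero]
    · intro h2
      exact absurd (mem_range.2 (by omega)) h2
  · rw [h.out a (by omega)]
    simp

/-- It is enough to exclude the phantom idempotents below one `e a`. -/
lemma noPhantom_of_diag (hr : NoRaise e)
    (hd : ∀ (a : ℕ) (q : R), a ≤ N → q * q = q → f q = 0 → e a * q = q → q * e a = q → q = 0) :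
    NoPhantom f := by
  intro q hq hf
  apply h.eq_zero_of_diag hr hq
  intro a
  by_cases ha : a ≤ N
  · apply hd a _ ha (h.diag_idem hr hq a)
    · rw [map_mul, map_mul, hf, mul_zero, zero_mul]
    · rw [← mul_assoc, ← mul_assoc, h.idem]
    · rw [mul_assoc, h.idem]
  · rw [h.out a (by omega), zero_mul, zero_mul]

/-- **Independence implies the absence of phantom idempotents.** -/
theorem noPhantom_of_indep (hN : 1 ≤ N)
    (hp : ∀ (x : R) (i j : ℕ), i ≠ j → f (e j * x * e i) = 0)
    (hi : ∀ e' e'' : ℕ → R, IsSys f p N e' → IsSys f p N e'' →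
      ∀ n, ps e' n * ps e'' n = ps e'' n) : NoPhantom f := by
  have hr := h.noRaise_of_indep hp (fun e' he' => hi e e' h he')
  apply h.noPhantom_of_diag hr
  intro a q ha hq hf h1 h2
  by_cases ha0 : a = 0
  · -- move `q` to the place `1`, and use the system from the other side
    subst ha0
    have h3 := h.move (s := 0) (t := 1) (by omega) hN (by omega) hq hf h1 h2
    have h4 := hi _ _ h3 h 1
    have h5 : ps (fun i => if i = 0 then e 0 - q else if i = 1 then e 1 + q else e i) 1 =
        e 0 - q := by
      rw [ps, sum_range_one, if_pos rfl]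
    have h6 : ps e 1 = e 0 := by rw [ps, sum_range_one]
    rw [h5, h6, sub_mul, h.idem, h2] at h4
    exact sub_eq_self.1 h4
  · -- move `q` to the place `0`
    have h3 := h.move (s := a) (t := 0) ha (by omega) ha0 hq hf h1 h2
    have h4 := hi _ _ h h3 1
    have h5 : ps (fun i => if i = a then e a - q else if i = 0 then e 0 + q else e i) 1 =
        ps e 1 + q := by
      rw [ps, ps, sum_range_one, sum_range_one, if_neg (Ne.symm ha0), if_pos rfl]
    have h6 : ps e 1 * q = 0 := by
      rw [← h1, ← mul_assoc, h.ps_mul, if_neg (by omega), zero_mul]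
    rw [h5, mul_add, h.ps_idem, h6, add_zero] at h4
    exact add_eq_left.1 h4.symm

/-- The effect of a raising element on the partial sums of a conjugate system. -/
lemma ps_conj {x : R} {a b : ℕ} (hab : a < b) :
    (e b * x * e a) * (e b * x * e a) = 0 ∧ ps e (a + 1) * (e b * x * e a) = 0 ∧
      ps (fun i => (1 + e b * x * e a) * e i * (1 - e b * x * e a)) (a + 1) =
        ps e (a + 1) + e b * x * e a := by
  set n : R := e b * x * e a with hn
  have h1 : n * n = 0 := by
    rw [hn]
    calc e b * x * e a * (e b * x * e a) = e b * x * (e a * e b) * x * e a := by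
          simp only [mul_assoc]
      _ = 0 := by rw [h.orth (by omega), mul_zero, zero_mul, zero_mul]
  have h6 : ps e (a + 1) * n = 0 := by
    rw [hn, mul_assoc (e b), ← mul_assoc, h.ps_mul, if_neg (by omega), zero_mul]
  refine ⟨h1, h6, ?_⟩
  have h4 : ps (fun i => (1 + n) * e i * (1 - n)) (a + 1) =
      (1 + n) * ps e (a + 1) * (1 - n) := by
    rw [ps, ps, mul_sum, sum_mul]
  have h5 : n * ps e (a + 1) = n := by
    rw [hn, mul_assoc, h.mul_ps, if_pos (by omega)]
  rw [h4, add_mul, one_mul, h5, mul_sub, mul_one, add_mul, h6, h1, add_zero, sub_zero]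

/-- Independence after a ring homomorphism `g`: the raising elements are in the kernel. -/
theorem raise_mem_ker {A : Type*} [Ring A] (g : R →+* A)
    (hp : ∀ (x : R) (i j : ℕ), i ≠ j → f (e j * x * e i) = 0)
    (hi : ∀ e', IsSys f p N e' → ∀ n, g (ps e n) * g (ps e' n) = g (ps e' n))
    (x : R) {a b : ℕ} (hab : a < b) : g (e b * x * e a) = 0 := by
  obtain ⟨h1, h6, h3⟩ := h.ps_conj (x := x) hab
  set n : R := e b * x * e a with hn
  have huv : (1 + n) * (1 - n) = 1 := by
    rw [mul_sub, mul_one, add_mul, one_mul, h1]; abel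
  have hvu : (1 - n) * (1 + n) = 1 := by
    rw [mul_add, mul_one, sub_mul, one_mul, h1]; abel
  have hf : f (1 + n) = 1 := by rw [map_add, map_one, hp x a b (by omega), add_zero]
  have h2 := hi _ (h.conj huv hvu hf) (a + 1)
  rw [h3, map_add, mul_add, ← map_mul, h.ps_idem, ← map_mul, h6, map_zero, add_zero] at h2
  exact add_eq_left.1 h2.symm

/-- If no element of the kernel of `f` is mapped by `g` to a non-zero idempotent and the raising
elements are in the kernel of `g`, then the images under `g` of the partial sums are independent of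
the system. -/
theorem ps_eq_of_idem {A : Type*} [Ring A] (g : R →+* A)
    (hnz : ∀ z : R, f z = 0 → g z * g z = g z → g z = 0)
    (hr : ∀ (x : R) (a b : ℕ), a < b → g (e b * x * e a) = 0) (h' : IsSys f p N e') (n : ℕ) :
    g (ps e n) * g (ps e' n) = g (ps e' n) ∧ g (ps e' n) * g (ps e n) = g (ps e n) := by
  have hinv : ∀ x : R, g ((1 - ps e n) * x * ps e n) = 0 := by
    intro x
    have h2 : (1 - ps e n) * x * ps e n = ∑ i ∈ range (N + 1), ∑ j ∈ range (N + 1),
        e i * ((1 - ps e n) * x * ps e n) * e j := h.eq_sum _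
    rw [h2, map_sum]
    apply sum_eq_zero
    intro i _
    rw [map_sum]
    apply sum_eq_zero
    intro j _
    have h1 : e i * (1 - ps e n) = if i < n then 0 else e i := by
      rw [mul_sub, mul_one, h.mul_ps]
      split_ifs
      · exact sub_self _
      · exact sub_zero _
    have h3 : e i * ((1 - ps e n) * x * ps e n) * e j =
        (e i * (1 - ps e n)) * x * (ps e n * e j) := by simp only [mul_assoc]
    rw [h3, h1, h.ps_mul]
    by_cases hi : i < n
    · rw [if_pos hi, zero_mul, zero_mul, map_zero]
    · by_cases hj : j < n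
      · rw [if_neg hi, if_pos hj]
        exact hr x j i (by omega)
      · rw [if_neg hj, mul_zero, map_zero]
  have hf : f (ps e n) = f (ps e' n) := by rw [h.map_ps, h'.map_ps]
  constructor
  · have h1 : g ((1 - ps e n) * ps e' n) = 0 := by
      apply hnz
      · rw [map_mul, map_sub, map_one, ← hf, sub_mul, one_mul, ← map_mul, h.ps_idem, sub_self]
      · have h2 : g ((1 - ps e n) * ps e' n * (1 - ps e n)) = g ((1 - ps e n) * ps e' n) := by
          rw [mul_sub, mul_one, map_sub, hinv, sub_zero]
        calc g ((1 - ps e n) * ps e' n) * g ((1 - ps e n) * ps e' n)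
            = g ((1 - ps e n) * ps e' n * (1 - ps e n)) * g (ps e' n) := by
              simp only [← map_mul, mul_assoc]
          _ = _ := by rw [h2, ← map_mul, mul_assoc, h'.ps_idem]
    rw [sub_mul, one_mul, map_sub, sub_eq_zero, map_mul] at h1
    exact h1.symm
  · have h1 : g ((1 - ps e' n) * ps e n) = 0 := by
      apply hnz
      · rw [map_mul, map_sub, map_one, hf, sub_mul, one_mul, ← map_mul, h'.ps_idem, sub_self]
      · have h2 : g (ps e n * (1 - ps e' n) * ps e n) = g ((1 - ps e' n) * ps e n) := by
          have h3 := hinv (1 - ps e' n)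
          rw [sub_mul, sub_mul, one_mul, map_sub, sub_eq_zero] at h3
          exact h3.symm
        calc g ((1 - ps e' n) * ps e n) * g ((1 - ps e' n) * ps e n)
            = g (1 - ps e' n) * g (ps e n * (1 - ps e' n) * ps e n) := by
              simp only [← map_mul, mul_assoc]
          _ = g (((1 - ps e' n) * (1 - ps e' n)) * ps e n) := by
              rw [h2, ← map_mul, mul_assoc]
          _ = _ := by
            congr 2
            rw [mul_sub, mul_one, sub_mul, one_mul, h'.ps_idem, sub_self, sub_zero]
    rw [sub_mul, one_mul, map_sub, sub_eq_zero, map_mul] at h1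
    exact h1.symm

omit h in
/-- Nilpotent elements are not mapped to non-zero idempotents. -/
lemma map_eq_zero_of_nil {A : Type*} [Ring A] (g : R →+* A) {z : R} (hz : IsNilpotent z)
    (hzz : g z * g z = g z) : g z = 0 := by
  obtain ⟨m, hm⟩ := hz
  have h3 : ∀ k : ℕ, g z ^ (k + 1) = g z := by
    intro k
    induction k with
    | zero => rw [zero_add, pow_one]
    | succ k ih => rw [pow_succ, ih, hzz]
  rw [← h3 m, ← map_pow, pow_succ, hm, zero_mul, map_zero]

/-- Independence after a ring homomorphism `g`: the phantom idempotents below one `e a` are in the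
kernel. -/
theorem phantom_mem_ker {A : Type*} [Ring A] (g : R →+* A) (hN : 1 ≤ N)
    (hi : ∀ e' e'' : ℕ → R, IsSys f p N e' → IsSys f p N e'' →
      ∀ n, g (ps e' n) * g (ps e'' n) = g (ps e'' n)) {q : R} {a : ℕ} (ha : a ≤ N)
    (hq : q * q = q) (hf : f q = 0) (h1 : e a * q = q) (h2 : q * e a = q) : g q = 0 := by
  by_cases ha0 : a = 0
  · subst ha0
    have h3 := h.move (s := 0) (t := 1) (by omega) hN (by omega) hq hf h1 h2
    have h4 := hi _ _ h3 h 1
    have h5 : ps (fun i => if i = 0 then e 0 - q else if i = 1 then e 1 + q else e i) 1 =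
        e 0 - q := by
      rw [ps, sum_range_one, if_pos rfl]
    have h6 : ps e 1 = e 0 := by rw [ps, sum_range_one]
    rw [h5, h6, ← map_mul, sub_mul, h.idem, h2, map_sub] at h4
    exact sub_eq_self.1 h4
  · have h3 := h.move (s := a) (t := 0) ha (by omega) ha0 hq hf h1 h2
    have h4 := hi _ _ h h3 1
    have h5 : ps (fun i => if i = a then e a - q else if i = 0 then e 0 + q else e i) 1 =
        ps e 1 + q := by
      rw [ps, ps, sum_range_one, sum_range_one, if_neg (Ne.symm ha0), if_pos rfl]
    have h6 : ps e 1 * q = 0 := by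
      rw [← h1, ← mul_assoc, h.ps_mul, if_neg (by omega), zero_mul]
    rw [h5, ← map_mul, mul_add, h.ps_idem, h6, add_zero, map_add] at h4
    exact add_eq_left.1 h4.symm

end IsSys

end Pool.Agent.Q28.MC
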