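import Pool.Agent.Q28.MC.Defs
import Pool.Agent.Q28.MC.Ring
import Pool.Agent.TH133.Murre
import Pool.Agent.TH133.Ext

/-!
# The criterion for the independence of the Chow-Kunneth filtration
-/

open CategoryTheory AlgebraicGeometry

universe u v w

namespace Pool.Agent.Q28.MC

open Pool.Agent.H914 Pool.Agent.H914.VarClass Pool.Agent.H914.VarClass.Obj Pool.Agent.W492.BB
  Pool.Agent.W550.Corr Pool.Agent.TH133

set_option linter.unusedSectionVars false

variable {k : Type u} [Field k] {𝒱 : VarClass k}

variable {C : TheoryData.{u, v, 0} 𝒱 ℚ} {K : Type w} [Field K] {H : WeilTheoryData.{u, v, w} C K}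
  [hC : IsChowProj C] [hH : IsWeilProj H] {X Y Z W : 𝒱.Obj}

/-- The action of the ring of correspondences of degree zero on the cohomology. -/
noncomputable def act0 (H : WeilTheoryData.{u, v, w} C K) [hH : IsWeilProj H] (X : 𝒱.Obj) :
    ↥(cor0 C X) →+* Module.End K (H.A X) := (actH C X H).comp (cor0 C X).subtype

include hC hH

lemma act0_apply (x : cor0 C X) (a : H.A X) :
    act0 H X x a = H.act (H.cl (X := X.prod X) x.1) a := rfl

lemma act0_eq_zero_iff (x : cor0 C X) : act0 H X x = 0 ↔ H.cl (X := X.prod X) x.1 = 0 := by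
  constructor
  · intro h
    apply hom_zero_of_act (H := H)
    intro a
    exact congrArg (fun g : Module.End K (H.A X) => g a) h
  · intro h
    apply LinearMap.ext
    intro a
    rw [act0_apply, h, TheoryData.act_zero]
    rfl

/-- The decomposition as a family in the ring of correspondences of degree zero. -/
def sys {π : ℕ → C.A (X.prod X)} (h : IsCK H X π) : ℕ → cor0 C X := fun i => ⟨π i, h.deg i⟩

lemma sys_val {π : ℕ → C.A (X.prod X)} (h : IsCK H X π) (i : ℕ) :
    ((sys h i : cor0 C X) : Cor C X) = π i := rfl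

lemma act0_sys {π : ℕ → C.A (X.prod X)} (h : IsCK H X π) (i : ℕ) (m : ℤ) {a : H.A X}
    (ha : a ∈ H.gr X m) : act0 H X (sys h i) a = if m = i then a else 0 := h.actH_eq i m ha

lemma act0_sys_eq {π π' : ℕ → C.A (X.prod X)} (h : IsCK H X π) (h' : IsCK H X π') (i : ℕ) :
    act0 H X (sys h' i) = act0 H X (sys h i) := by
  apply ext_gr H
  intro m a ha
  rw [act0_sys h' i m ha, act0_sys h i m ha]

lemma isSys {π π' : ℕ → C.A (X.prod X)} (h : IsCK H X π) (h' : IsCK H X π') :
    IsSys (act0 H X) (fun i => act0 H X (sys h i)) (2 * X.dim) (sys h') where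
  out i hi := Subtype.ext (h'.out i hi)
  mul i j := by
    apply Subtype.ext
    have h1 := h'.comp_eq j i
    by_cases hij : i = j
    · subst hij
      rw [if_pos rfl] at h1 ⊢
      exact h1
    · rw [if_neg (Ne.symm hij)] at h1
      rw [if_neg hij]
      exact h1
  sum := by
    apply Subtype.ext
    rw [AddSubmonoidClass.coe_finsetSum]
    exact h'.sum
  map i := act0_sys_eq h h' i

lemma isCK_of_isSys {π : ℕ → C.A (X.prod X)} (h : IsCK H X π) {e : ℕ → cor0 C X}
    (he : IsSys (act0 H X) (fun i => act0 H X (sys h i)) (2 * X.dim) e) :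
    IsCK H X (fun i => ((e i : cor0 C X) : Cor C X)) := by
  apply isCK_of (P := fun i => ((e i : cor0 C X) : Cor C X))
  · exact fun i => (e i).2
  · intro i hi
    rw [he.out i hi]
    rfl
  · intro i j
    have h1 := he.mul i j
    split_ifs with hij
    · rw [if_pos hij] at h1
      exact congrArg (fun x : cor0 C X => (x : Cor C X)) h1
    · rw [if_neg hij] at h1
      exact congrArg (fun x : cor0 C X => (x : Cor C X)) h1
  · have h1 : ((∑ i ∈ Finset.range (2 * X.dim + 1), e i : cor0 C X) : Cor C X) = (1 : cor0 C X) :=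
      congrArg (fun x : cor0 C X => (x : Cor C X)) he.sum
    rw [AddSubmonoidClass.coe_finsetSum] at h1
    exact h1
  · intro i m a ha
    have h1 := he.map i
    have h2 : act0 H X (e i) a = act0 H X (sys h i) a := by rw [h1]
    rw [act0_sys h i m ha] at h2
    exact h2

lemma val_sand {π π' : ℕ → C.A (X.prod X)} (h : IsCK H X π) (h' : IsCK H X π') (x : cor0 C X)
    (a b : ℕ) : ((sys h' b * x * sys h a : cor0 C X) : Cor C X) =
      C.comp (C.comp (π a) x.1) (π' b) := by
  rw [mul_assoc]
  rfl

lemma noRaise_iff {π : ℕ → C.A (X.prod X)} (h : IsCK H X π) :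
    NoRaise (sys h) ↔ NeverRaises C π := by
  constructor
  · intro h1 γ hγ a b hab
    have h2 := congrArg (fun x : cor0 C X => (x : Cor C X)) (h1 ⟨γ, hγ⟩ a b hab)
    have h3 := val_sand h h ⟨γ, hγ⟩ a b
    exact h3.symm.trans h2
  · intro h1 x a b hab
    apply Subtype.ext
    rw [val_sand]
    exact h1 x.1 x.2 a b hab

lemma noPhantom_iff : NoPhantom (act0 H X) ↔ NoPhantoms H X := by
  constructor
  · intro h1 γ hγ h2 h3
    have h4 := h1 ⟨γ, hγ⟩ (Subtype.ext h2) ((act0_eq_zero_iff _).2 h3)
    exact congrArg (fun x : cor0 C X => (x : Cor C X)) h4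
  · intro h1 x hx hx'
    apply Subtype.ext
    exact h1 x.1 x.2 (congrArg (fun x : cor0 C X => (x : Cor C X)) hx) ((act0_eq_zero_iff _).1 hx')


lemma act0_sand {π : ℕ → C.A (X.prod X)} (h : IsCK H X π) (x : cor0 C X) {i j : ℕ}
    (hij : i ≠ j) : act0 H X (sys h j * x * sys h i) = 0 := by
  apply ext_gr H
  intro m a ha
  rw [LinearMap.zero_apply, map_mul, map_mul, Module.End.mul_apply, Module.End.mul_apply,
    act0_sys h i m ha]
  split_ifs with hm
  · have h1 : act0 H X x a ∈ H.gr X m := actH_mem0 x.2 ha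
    rw [act0_sys h j m h1, if_neg (by omega)]
  · rw [map_zero, map_zero]

lemma ps_val {π : ℕ → C.A (X.prod X)} (h : IsCK H X π) (n : ℕ) :
    ((ps (sys h) n : cor0 C X) : Cor C X) = firstPart C π n := by
  rw [ps, AddSubmonoidClass.coe_finsetSum]
  rfl

lemma comp_firstPart {π : ℕ → C.A (X.prod X)} (h : IsCK H X π) (n : ℕ) :
    C.comp (firstPart C π n) (firstPart C π n) = firstPart C π n := by
  have h1 := congrArg (fun x : cor0 C X => (x : Cor C X)) ((isSys h h).ps_idem n)
  have h2 : ((ps (sys h) n * ps (sys h) n : cor0 C X) : Cor C X) =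
      C.comp (firstPart C π n) (firstPart C π n) := by
    rw [← ps_val h n]
    rfl
  rw [← h2, ← ps_val h n]
  exact h1

/-- The zero-dimensional case. -/
lemma noPhantom_dim_zero (hX : X.dim = 0) : NoPhantoms H X := by
  intro γ hγ _ h0
  have h1 : C.Deg 0 γ := by
    rw [hX] at hγ
    exact_mod_cast hγ
  obtain ⟨q, hq⟩ := hC.gr_zero _ γ h1
  by_cases h2 : q = 0
  · rw [hq, h2, zero_smul]
  · exfalso
    rw [hq] at h0
    have h3 : H.cl (1 : C.A (X.prod X)) = 0 := by
      have h4 : (1 : C.A (X.prod X)) = ((q⁻¹ : ℚ) • (1 : C.A (X.prod X))) * (q • (1 : C.A (X.prod X))) := by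
        rw [smul_mul_smul_comm, inv_mul_cancel₀ h2, one_smul, one_mul]
      rw [h4, map_mul, h0, mul_zero]
    rw [map_one] at h3
    exact hH.one_ne_zero _ h3

/-- **The criterion.** -/
theorem universalC_iff {π : ℕ → C.A (X.prod X)} (h : IsCK H X π) :
    UniversalC H X ↔ NeverRaises C π ∧ NoPhantoms H X := by
  rw [← noRaise_iff h, ← noPhantom_iff]
  constructor
  · intro hU
    have hi : ∀ e' e'' : ℕ → cor0 C X,
        IsSys (act0 H X) (fun i => act0 H X (sys h i)) (2 * X.dim) e' →
        IsSys (act0 H X) (fun i => act0 H X (sys h i)) (2 * X.dim) e'' →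
        ∀ n, ps e' n * ps e'' n = ps e'' n := by
      intro e' e'' h' h'' n
      have g' := isCK_of_isSys h h'
      have g'' := isCK_of_isSys h h''
      have h1 := (hU _ _ g'' g' X n (firstPart C (fun i => ((e'' i : cor0 C X) : Cor C X)) n)).1
        (comp_firstPart g'' n)
      apply Subtype.ext
      have h2 := ps_val g' n
      have h3 := ps_val g'' n
      have h4 : ((ps e' n * ps e'' n : cor0 C X) : Cor C X) =
        C.comp (firstPart C (fun i => ((e'' i : cor0 C X) : Cor C X)) n)
          (firstPart C (fun i => ((e' i : cor0 C X) : Cor C X)) n) := by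
        rw [← h2, ← h3]
        rfl
      rw [h4, h1]
      exact h3.symm
    refine ⟨(isSys h h).noRaise_of_indep (fun x i j hij => act0_sand h x hij)
      (fun e' he' => hi _ e' (isSys h h) he'), ?_⟩
    by_cases hX : X.dim = 0
    · rw [noPhantom_iff]
      exact noPhantom_dim_zero hX
    · exact (isSys h h).noPhantom_of_indep (by omega) (fun x i j hij => act0_sand h x hij) hi
  · rintro ⟨hr, hq⟩
    have key : ∀ π', (h' : IsCK H X π') → ∀ π'', (h'' : IsCK H X π'') → ∀ n,
        ps (sys h'') n * ps (sys h') n = ps (sys h') n := by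
      intro π' h' π'' h'' n
      have hr' := (isSys h h).noRaise_of hr hq (isSys h h')
      have h1 := (isSys h h').ps_eq hr' hq (isSys h h'') n
      exact h1.2
    have key2 : ∀ π', (h' : IsCK H X π') → ∀ π'', (h'' : IsCK H X π'') → ∀ n,
        C.comp (firstPart C π' n) (firstPart C π'' n) = firstPart C π' n := by
      intro π' h' π'' h'' n
      have h1 := congrArg (fun x : cor0 C X => (x : Cor C X)) (key π' h' π'' h'' n)
      have h2 : ((ps (sys h'') n * ps (sys h') n : cor0 C X) : Cor C X) =
          C.comp (firstPart C π' n) (firstPart C π'' n) := by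
        rw [← ps_val h' n, ← ps_val h'' n]
        rfl
      rw [← h2, ← ps_val h' n]
      exact h1
    intro π' π'' h' h'' W n Γ
    constructor
    · intro h1
      rw [← h1, comp_assoc, key2 π' h' π'' h'' n]
    · intro h1
      rw [← h1, comp_assoc, key2 π'' h'' π' h' n]

/-- **Independence of `F^0 CH^l` implies that `F^0 CH^l` is everything.** -/
theorem act_eq_zero_of_C0 {l : ℕ} (hX : MurreCAt H X l 0) {π : ℕ → C.A (X.prod X)}
    (hπ : IsCK H X π) {j : ℕ} {x : C.A X} (hx : x ∈ C.gr X l) (hj : 2 * l < j) :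
    C.act (π j) x = 0 := by
  by_cases hjd : 2 * X.dim < j
  · rw [hπ.out j hjd, TheoryData.act_zero]
  obtain ⟨u0, hu0, v0, hv0, huv⟩ := exists_dual_pair (C := C) (H := H) X (l := l) (by omega)
  set α := C.act (π j) x with hα
  have hαm : α ∈ C.gr X l := act_mem0 C (hπ.deg j) hx
  have hαj : C.act (π j) α = α := by rw [hα, ← C.act_comp, hπ.idem]
  let P : ℕ → Cor C X := π
  have hP : IsCK H X P := hπ
  have hPm : ∀ i, P i ∈ cor0 C X := hπ.deg
  have hPo : ∀ i j, i ≠ j → P i * P j = 0 := fun i j hij => by rw [hP.mul_eq, if_neg hij]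
  have hPi : ∀ i, P i * P i = P i := fun i => by rw [hP.mul_eq, if_pos rfl]
  let E : Cor C X := C.ext v0 α
  have hE : E ∈ cor0 C X := by
    have := ext_mem (C := C) (H := H) hv0 hαm
    rwa [sub_add_cancel] at this
  let n : Cor C X := P j * E * P (2 * l)
  have hn : n ∈ cor0 C X := (cor0 C X).mul_mem ((cor0 C X).mul_mem (hPm _) hE) (hPm _)
  have hnn : n * n = 0 := by
    have : n * n = P j * E * (P (2 * l) * P j) * E * P (2 * l) := by
      simp only [n, mul_assoc]
    rw [this, hPo _ _ (by omega), mul_zero, zero_mul, zero_mul]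
  have hnact : ∀ a : H.A X, actH C X H n a = 0 := by
    have h0 : actH C X H n = 0 := by
      apply ext_gr H
      intro m a ha
      rw [LinearMap.zero_apply]
      simp only [n]
      rw [map_mul, map_mul, Module.End.mul_apply, Module.End.mul_apply, hP.actH_eq' _ _ ha]
      split_ifs with hm
      · rw [hP.actH_eq' _ _ (actH_mem0 hE ha), if_neg (by omega)]
      · rw [map_zero, map_zero]
    intro a
    rw [h0, LinearMap.zero_apply]
  have huv' : (1 + n) * (1 - n) = 1 := by
    rw [mul_sub, mul_one, add_mul, one_mul, hnn]; abel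
  have hvu' : (1 - n) * (1 + n) = 1 := by
    rw [mul_add, mul_one, sub_mul, one_mul, hnn]; abel
  have hconj := hP.conj (u := 1 + n) (v := 1 - n) ((cor0 C X).add_mem (cor0 C X).one_mem hn)
    ((cor0 C X).sub_mem (cor0 C X).one_mem hn) huv' hvu'
    (fun a => by rw [map_add, map_one, LinearMap.add_apply, hnact, add_zero]; rfl)
  have hF := hX _ _ hconj hπ
  -- the class `y = (1 + n)_* (π_{2l})_* u0`
  set w := C.act (π (2 * l)) u0 with hw
  have hwm : w ∈ C.gr X l := act_mem0 C (hπ.deg _) hu0
  have hact : ∀ (a b : Cor C X) (z : C.A X), actC C X (a * b) z = actC C X a (actC C X b z) :=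
    fun a b z => by rw [map_mul]; rfl
  have hPw : ∀ i, actC C X (P i) w = if i = 2 * l then w else 0 := by
    intro i
    have h1 : w = actC C X (P (2 * l)) u0 := rfl
    split_ifs with hi
    · rw [h1, ← hact, hi, hPi]
    · rw [h1, ← hact, hPo _ _ hi, map_zero]
      rfl
  have hnw : actC C X n w = α := by
    simp only [n]
    rw [hact, hact, hPw, if_pos rfl]
    have h1 : actC C X E w = α := by
      change C.act (C.ext v0 α) w = α
      rw [act_ext (H := H)]
      have h2 : C.push (snd X X) (C.pull (fst X X) (v0 * w)) = 1 := by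
        rw [← huv]
        apply deg_eq_of_cl (H := H)
        · have := C.mul_mem hv0 hwm
          rwa [sub_add_cancel] at this
        · have := C.mul_mem hv0 hu0
          rwa [sub_add_cancel] at this
        · rw [map_mul, map_mul, hw, cl_act H]
          congr 1
          have h3 := H.cl_mem hu0
          exact hπ.act_self (2 * l) _ (by exact_mod_cast h3)
      rw [h2, one_mul]
    rw [h1]
    exact hαj
  have hy : w + α ∈ ckFil C (fun i => ((1 + n) * P i * (1 - n) : Cor C X)) l 0 := by
    rw [hconj.mem_ckFil]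
    refine ⟨Submodule.add_mem _ hwm hαm, fun i hi => ?_⟩
    have h1 : w + α = actC C X (1 + n) w := by
      rw [map_add, map_one, LinearMap.add_apply, hnw]
      rfl
    have h2 : actC C X ((1 + n) * P i * (1 - n)) (w + α) = 0 := by
      rw [h1, ← hact]
      have h3 : (1 + n) * P i * (1 - n) * (1 + n) = (1 + n) * P i := by
        rw [mul_assoc, hvu', mul_one]
      rw [h3, hact, hPw, if_neg (by omega), map_zero]
    exact h2
  rw [hF, hπ.mem_ckFil] at hy
  have h1 := hy.2 j (by omega)
  rw [act_map_add, hαj] at h1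
  have h2 : C.act (π j) w = 0 := by
    have := hPw j
    rw [if_neg (by omega)] at this
    exact this
  rw [h2, zero_add] at h1
  exact h1


/-- Under the condition `F^0 CH^(dim X)(X × X) = CH^(dim X)(X × X)` for all Chow-Kunneth
decompositions of `X × X`, correspondences do not raise the weights. -/
lemma comp_zero_of_B0At
    (hB : ∀ σ, IsCK H (X.prod X) σ → ∀ (j : ℕ) (x : C.A (X.prod X)), x ∈ C.gr (X.prod X) X.dim →
      2 * X.dim < j → C.act (σ j) x = 0) {π ρ : ℕ → C.A (X.prod X)} (h : IsCK H X π)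
    (h' : IsCK H X ρ) {j b : ℕ} {γ : C.A (X.prod X)} (hγ : γ ∈ C.gr (X.prod X) X.dim)
    (hij : j < b) : C.comp (C.comp (π j) γ) (ρ b) = 0 := by
  by_cases hj : j ≤ 2 * X.dim
  · apply comp_zero_of_prod (H := H) h h' hj
    exact hB _ (h.dual.prod h') _ γ hγ (by omega)
  · rw [h.out j (by omega), zero_comp, zero_comp]


/-- The square of a phantom idempotent. -/
lemma phantom_square {π : ℕ → C.A (X.prod X)} (h : IsCK H X π) {a : ℕ} (ha : a ≤ 2 * X.dim)
    {q : C.A (X.prod X)} (h1 : C.comp q (π a) = q) (h2 : C.comp (π a) q = q) :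
    C.comp (tens C (tp C q) q) (prodCK C (dualCK C π) π (2 * X.dim)) = tens C (tp C q) q ∧
      C.comp (prodCK C (dualCK C π) π (2 * X.dim)) (tens C (tp C q) q) = tens C (tp C q) q := by
  have h3 : dualCK C π (2 * X.dim - a) = tp C (π a) := by
    unfold dualCK
    rw [if_pos (by omega)]
    congr 2
    omega
  have h4 : C.comp (tp C q) (tp C (π a)) = tp C q := by
    rw [← tp_comp C (ch_comm C), h2]
  have h5 : C.comp (tp C (π a)) (tp C q) = tp C q := by
    rw [← tp_comp C (ch_comm C), h1]
  have e1 : C.comp (tens C (tp C (π a)) (π a)) (prodCK C (dualCK C π) π (2 * X.dim)) =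
      tens C (tp C (π a)) (π a) := by
    unfold prodCK
    rw [comp_sum, ← h3]
    simp_rw [tens_comp', h.dual.comp_eq, h.comp_eq]
    rw [Finset.sum_eq_single (2 * X.dim - a)]
    · rw [if_pos rfl, if_pos (by omega)]
    · intro i _ hi
      rw [if_neg (Ne.symm hi), tens_zero_left]
    · intro h2
      rw [Finset.mem_range] at h2
      omega
  have e2 : C.comp (prodCK C (dualCK C π) π (2 * X.dim)) (tens C (tp C (π a)) (π a)) =
      tens C (tp C (π a)) (π a) := by
    unfold prodCK
    rw [sum_comp, ← h3]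
    simp_rw [tens_comp', h.dual.comp_eq, h.comp_eq]
    rw [Finset.sum_eq_single (2 * X.dim - a)]
    · rw [if_pos rfl, if_pos (by omega)]
      congr 2
      omega
    · intro i _ hi
      rw [if_neg hi, tens_zero_left]
    · intro h2
      rw [Finset.mem_range] at h2
      omega
  have e3 : C.comp (tens C (tp C q) q) (tens C (tp C (π a)) (π a)) = tens C (tp C q) q := by
    rw [tens_comp', h4, h1]
  have e4 : C.comp (tens C (tp C (π a)) (π a)) (tens C (tp C q) q) = tens C (tp C q) q := by
    rw [tens_comp', h5, h2]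
  constructor
  · rw [← e3, comp_assoc, e1]
  · rw [← e4, ← comp_assoc, e2]


/-- Under the condition `F^0 CH^(dim X)(X × X) = CH^(dim X)(X × X)` for all Chow-Kunneth
decompositions of `X × X`, there are no phantoms. -/
lemma noPhantoms_of_B0At
    (hB : ∀ σ, IsCK H (X.prod X) σ → ∀ (j : ℕ) (x : C.A (X.prod X)), x ∈ C.gr (X.prod X) X.dim →
      2 * X.dim < j → C.act (σ j) x = 0) {π : ℕ → C.A (X.prod X)} (h : IsCK H X π) :
    NoPhantoms H X := by
  by_cases hX : X.dim = 0
  · exact noPhantom_dim_zero hX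
  have hr : NoRaise (sys h) := (noRaise_iff h).2 fun γ hγ a b hab =>
    comp_zero_of_B0At hB h h hγ hab
  rw [← noPhantom_iff]
  apply (isSys h h).noPhantom_of_diag hr
  intro a q ha hqq hf h1 h2
  apply Subtype.ext
  set q0 : C.A (X.prod X) := q.1 with hq0
  have hq0m : q0 ∈ C.gr (X.prod X) X.dim := q.2
  have g1 : C.comp q0 (π a) = q0 := congrArg (fun x : cor0 C X => (x : Cor C X)) h1
  have g2 : C.comp (π a) q0 = q0 := congrArg (fun x : cor0 C X => (x : Cor C X)) h2
  have gqq : C.comp q0 q0 = q0 := congrArg (fun x : cor0 C X => (x : Cor C X)) hqq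
  have g0 : H.cl q0 = 0 := (act0_eq_zero_iff q).1 hf
  obtain ⟨k1, k2⟩ := phantom_square h ha g1 g2
  have hQ : tens C (tp C q0) q0 ∈ C.gr ((X.prod X).prod (X.prod X)) (X.prod X).dim := by
    have := tens_mem C (tp_mem C hq0m) hq0m
    have e : ((X.prod X).dim : ℤ) = X.dim + X.dim := by
      rw [dim_prod]
      push_cast
      ring
    rw [e]
    exact this
  have hσ : IsCK H (X.prod X) (prodCK C (dualCK C π) π) := h.dual.prod h
  let Q : cor0 C (X.prod X) := ⟨tens C (tp C q0) q0, hQ⟩
  have hdim : (X.prod X).dim = 2 * X.dim := by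
    rw [dim_prod]; ring
  have hmove := (isSys hσ hσ).move (s := 2 * X.dim) (t := 4 * X.dim) (q := Q)
    (by omega) (by omega) (by omega)
    (by
      apply Subtype.ext
      change C.comp (tens C (tp C q0) q0) (tens C (tp C q0) q0) = tens C (tp C q0) q0
      rw [tens_comp', ← tp_comp C (ch_comm C), gqq])
    (by
      rw [act0_eq_zero_iff]
      change H.cl (tens C (tp C q0) q0) = 0
      rw [tens, map_mul, H.cl_pull, H.cl_pull, g0, map_zero, mul_zero])
    (Subtype.ext k1) (Subtype.ext k2)
  have hσ' := isCK_of_isSys hσ hmove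
  have a1 := hB _ hσ (4 * X.dim) q0 hq0m (by omega)
  have a2 := hB _ hσ' (4 * X.dim) q0 hq0m (by omega)
  have a3 : (((if 4 * X.dim = 2 * X.dim then sys hσ (2 * X.dim) - Q else if 4 * X.dim = 4 * X.dim
      then sys hσ (4 * X.dim) + Q else sys hσ (4 * X.dim)) : cor0 C (X.prod X)) :
      Cor C (X.prod X)) = prodCK C (dualCK C π) π (4 * X.dim) + tens C (tp C q0) q0 := by
    rw [if_neg (by omega), if_pos rfl]
    rfl
  have a4 : C.act (prodCK C (dualCK C π) π (4 * X.dim) + tens C (tp C q0) q0) q0 = 0 := by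
    rw [← a3]
    exact a2
  rw [C.act_add, a1, zero_add, act_tens C (ch_comm C), tp_tp, gqq, gqq] at a4
  exact a4

end Pool.Agent.Q28.MC
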