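import Pool.Agent.Q28.MC.Defs
import Pool.Agent.Q28.MR.Defs

/-!
# Murre's conjecture (D) from one decomposition of the square: definitions
-/

open CategoryTheory AlgebraicGeometry

universe u v w

namespace Pool.Agent.Q28.MC

open Pool.Agent.H914 Pool.Agent.H914.VarClass Pool.Agent.H914.VarClass.Obj Pool.Agent.W492.BB
  Pool.Agent.W550.Corr Pool.Agent.TH133 Pool.Agent.Q28.MR

variable {k : Type u} [Field k] {𝒱 : VarClass k}

variable {C : TheoryData.{u, v, 0} 𝒱 ℚ} {K : Type w} [Field K] (H : WeilTheoryData.{u, v, w} C K)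

/-- Murre's condition (D) for the one Chow-Kunneth decomposition `π` of `X` in the one codimension
`i`: the homologically trivial classes in `CH^i(X)` lie in `F^1 CH^i(X)` (the converse is clear). -/
def SatisfiesDAt {X : 𝒱.Obj} (π : ℕ → C.A (X.prod X)) (i : ℕ) : Prop :=
  ∀ x : C.A X, C.Deg i x → H.cl x = 0 → x ∈ ckFil C π i 1

/-- Homologically trivial self-correspondences `γ` of degree zero of `X` strictly lower the weights of
the one Chow-Kunneth decomposition `π`: `π_b ∘ γ ∘ π_a = 0` for `a ≤ b`. -/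
def KernelLowers {X : 𝒱.Obj} (π : ℕ → C.A (X.prod X)) : Prop :=
  ∀ γ : C.A (X.prod X), C.Deg X.dim γ → H.cl γ = 0 → StrictlyLowering π γ

/-- The maps `End(h^a(X)) → End(H^a(X))` are injective, where `h^a(X)` are the summands of the
motive of `X` given by the one Chow-Kunneth decomposition `π`. -/
def FaithfulOnParts {X : 𝒱.Obj} (π : ℕ → C.A (X.prod X)) : Prop :=
  ∀ (γ : C.A (X.prod X)) (a : ℕ), C.Deg X.dim γ → H.cl (C.comp (C.comp (π a) γ) (π a)) = 0 →
    C.comp (C.comp (π a) γ) (π a) = 0

/-- No homologically trivial self-correspondence `γ` of `X` of degree zero acts as a non-zero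
idempotent on `CH^i(X)`. This holds if all such `γ` are nilpotent. -/
def NoIdempotentActionAt (X : 𝒱.Obj) (i : ℕ) : Prop :=
  ∀ γ : C.A (X.prod X), C.Deg X.dim γ → H.cl γ = 0 →
    (∀ x : C.A X, C.Deg i x → C.act γ (C.act γ x) = C.act γ x) →
    ∀ x : C.A X, C.Deg i x → C.act γ x = 0

end Pool.Agent.Q28.MC
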