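import Pool.Agent.TH133.Defs

/-!
# An exact criterion for the independence of the Chow-Kunneth filtration: definitions
-/

open CategoryTheory AlgebraicGeometry

universe u v w

namespace Pool.Agent.Q28.MC

open Pool.Agent.H914 Pool.Agent.H914.VarClass Pool.Agent.H914.VarClass.Obj Pool.Agent.W492.BB
  Pool.Agent.W550.Corr Pool.Agent.TH133

variable {k : Type u} [Field k] {𝒱 : VarClass k}

/-- The projector `π 0 + ⋯ + π (n - 1)` onto the direct summand
`h^0(X) ⊕ ⋯ ⊕ h^(n-1)(X)` of the Chow motive of `X`. -/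
noncomputable def firstPart (C : TheoryData.{u, v, 0} 𝒱 ℚ) {X : 𝒱.Obj} (π : ℕ → C.A (X.prod X))
    (n : ℕ) : C.A (X.prod X) := ∑ j ∈ Finset.range n, π j

/-- There is no non-zero morphism from `h^a(X)` to `h^b(X)` for `a < b`, where `h^i(X)` are the
summands of the Chow motive of `X` given by the one Chow-Kunneth decomposition `π`:
`π_b ∘ γ ∘ π_a = 0` for all self-correspondences `γ` of degree zero. -/
def NeverRaises (C : TheoryData.{u, v, 0} 𝒱 ℚ) {X : 𝒱.Obj} (π : ℕ → C.A (X.prod X)) : Prop :=
  ∀ γ : C.A (X.prod X), C.Deg X.dim γ → ∀ a b : ℕ, a < b → C.comp (C.comp (π a) γ) (π b) = 0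

/-- Morphisms from `h^a(X)` to `h^b(X)` for `a < b` act as zero on the Chow groups of `X`, where
`h^i(X)` are the summands of the Chow motive of `X` given by the one Chow-Kunneth decomposition `π`:
`(π_b ∘ γ ∘ π_a)_* x = 0` for all self-correspondences `γ` of degree zero and `x ∈ CH(X)`. -/
def RaisingActsTrivially (C : TheoryData.{u, v, 0} 𝒱 ℚ) {X : 𝒱.Obj} (π : ℕ → C.A (X.prod X)) :
    Prop :=
  ∀ γ : C.A (X.prod X), C.Deg X.dim γ → ∀ a b : ℕ, a < b → ∀ x : C.A X,
    C.act (C.comp (C.comp (π a) γ) (π b)) x = 0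

variable {C : TheoryData.{u, v, 0} 𝒱 ℚ} {K : Type w} [Field K] (H : WeilTheoryData.{u, v, w} C K)

/-- Every homologically trivial self-correspondence of `X` of degree zero is nilpotent: a composition
of `m` copies of it is zero. This holds if the Chow motive of `X` is finite-dimensional (Kimura,
O'Sullivan), for example if `X` is dominated by a product of curves. -/
def NilpotentKernel (X : 𝒱.Obj) : Prop :=
  ∀ γ : C.A (X.prod X), C.Deg X.dim γ → H.cl γ = 0 → ∃ m : ℕ, compList C X (List.replicate m γ) = 0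

/-- No homologically trivial self-correspondence `γ` of `X` of degree zero acts as a non-zero
idempotent on the Chow groups of `X`. This holds if all such `γ` are nilpotent. -/
def NoIdempotentAction (X : 𝒱.Obj) : Prop :=
  ∀ γ : C.A (X.prod X), C.Deg X.dim γ → H.cl γ = 0 →
    (∀ x : C.A X, C.act γ (C.act γ x) = C.act γ x) → ∀ x : C.A X, C.act γ x = 0

/-- Phantom summands of the motives `h^a(X)` given by the Chow-Kunneth decomposition `π`, that is,
homologically trivial idempotents `q` of degree zero with `q ∘ π_a = π_a ∘ q = q`, act as zero on the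
Chow groups of `X`. -/
def PhantomsActTrivially {X : 𝒱.Obj} (π : ℕ → C.A (X.prod X)) : Prop :=
  ∀ (a : ℕ) (q : C.A (X.prod X)), C.Deg X.dim q → C.comp q q = q → H.cl q = 0 →
    C.comp q (π a) = q → C.comp (π a) q = q → ∀ x : C.A X, C.act q x = 0

/-- The Chow motive of `X` has no phantom summand: a homologically trivial idempotent
self-correspondence of degree zero is zero. -/
def NoPhantoms (X : 𝒱.Obj) : Prop :=
  ∀ γ : C.A (X.prod X), C.Deg X.dim γ → C.comp γ γ = γ → H.cl γ = 0 → γ = 0

/-- Murre's condition (C) for `X`, in codimension `i` and for the step `F^n` only: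
`F^n CH^i(X)` is the same for all Chow-Kunneth decompositions of `X`. -/
def MurreCAt (X : 𝒱.Obj) (i n : ℕ) : Prop :=
  ∀ π π', IsCK H X π → IsCK H X π' → ckFil C π i n = ckFil C π' i n

/-- The universal form of (C): the subobject `h^0(X) ⊕ ⋯ ⊕ h^(n-1)(X)` of the Chow motive of `X` is
the same for all Chow-Kunneth decompositions `π` of `X`. That is, the correspondences `Γ` from any
variety `W` to `X` with values in it, those with `(π_0 + ⋯ + π_(n-1)) ∘ Γ = Γ`, are the same. -/
def UniversalC (X : 𝒱.Obj) : Prop :=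
  ∀ π π', IsCK H X π → IsCK H X π' → ∀ (W : 𝒱.Obj) (n : ℕ) (Γ : C.A (W.prod X)),
    C.comp Γ (firstPart C π n) = Γ ↔ C.comp Γ (firstPart C π' n) = Γ

/-- The correspondence `ν` strictly lowers the weights of `π`: `π_b ∘ ν ∘ π_a = 0` for `a ≤ b`. -/
def StrictlyLowering {X : 𝒱.Obj} (π : ℕ → C.A (X.prod X)) (ν : C.A (X.prod X)) : Prop :=
  ∀ a b : ℕ, a ≤ b → C.comp (C.comp (π a) ν) (π b) = 0

/-- Any two Chow-Kunneth decompositions of `X` are conjugate by `Δ_X + ν` with `ν` of degree zero,
homologically trivial and strictly lowering the weights (so that all products of `2 dim X + 1`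
such `ν` are zero). -/
def UnipotentlyConjugate (X : 𝒱.Obj) : Prop :=
  ∀ π π', IsCK H X π → IsCK H X π' → ∃ ν : C.A (X.prod X), C.Deg X.dim ν ∧ H.cl ν = 0 ∧
    StrictlyLowering π ν ∧ ∀ i, C.comp (dg C X + ν) (π' i) = C.comp (π i) (dg C X + ν)

end Pool.Agent.Q28.MC
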