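import Pool.Agent.Q28.MC.Geo

/-!
# The criterion for one variety with nilpotent homologically trivial correspondences
-/

open CategoryTheory AlgebraicGeometry

universe u v w

namespace Pool.Agent.Q28.MC

open Pool.Agent.H914 Pool.Agent.H914.VarClass Pool.Agent.H914.VarClass.Obj Pool.Agent.W492.BB
  Pool.Agent.W550.Corr Pool.Agent.TH133

set_option linter.unusedSectionVars false

variable {k : Type u} [Field k] {𝒱 : VarClass k}

variable {C : TheoryData.{u, v, 0} 𝒱 ℚ} {K : Type w} [Field K] {H : WeilTheoryData.{u, v, w} C K}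
  [hC : IsChowProj C] [hH : IsWeilProj H] {X Y Z W : 𝒱.Obj}

/-- The action of the ring of correspondences of degree zero on the Chow groups. -/
noncomputable def actC0 (C : TheoryData.{u, v, 0} 𝒱 ℚ) [hC : IsChowProj C] (X : 𝒱.Obj) :
    ↥(cor0 C X) →+* Module.End ℚ (C.A X) := (actC C X).comp (cor0 C X).subtype

include hC hH

omit hH in
lemma span_grC (X : 𝒱.Obj) (a : C.A X) : a ∈ ⨆ i, C.gr X i := by
  rw [(C.isInternal X).submodule_iSup_eq_top]; trivial

omit hH in
/-- Linear maps agreeing on homogeneous classes agree. -/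
lemma ext_grC {V : Type*} [AddCommGroup V] [Module ℚ V] (f g : C.A X →ₗ[ℚ] V)
    (h : ∀ i : ℕ, ∀ a ∈ C.gr X i, f a = g a) : f = g := by
  apply LinearMap.ext
  intro a
  have h1 := span_grC (C := C) X a
  induction h1 using Submodule.iSup_induction' with
  | mem i x hx =>
    by_cases hi : i < 0
    · rw [C.gr_neg _ _ hi] at hx
      rw [(Submodule.mem_bot _).1 hx, map_zero, map_zero]
    · obtain ⟨n, rfl⟩ := Int.eq_ofNat_of_zero_le (not_lt.1 hi)
      exact h n x hx
  | zero => rw [map_zero, map_zero]
  | add x y _ _ hx hy => rw [map_add, map_add, hx, hy]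

lemma act_firstPart_top {π : ℕ → C.A (X.prod X)} (h : IsCK H X π) (hB : MurreB0 H X) {i m : ℕ}
    (hm : 2 * i < m) {x : C.A X} (hx : C.Deg i x) : C.act (firstPart C π m) x = x := by
  rw [murreB0_iff] at hB
  have h1 : C.act (∑ j ∈ Finset.range (2 * X.dim + 1 + m), π j) x = x := by
    rw [h.sum_of_le (by omega), act_dg]
  rw [act_sum] at h1
  rw [firstPart, act_sum]
  conv_rhs => rw [← h1]
  apply Finset.sum_subset
  · intro a ha
    rw [Finset.mem_range] at *
    omega
  · intro a _ ha
    rw [Finset.mem_range] at ha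
    exact hB _ h i a x hx (by omega)

/-- Under (C), the projectors to the first parts have the same images on the Chow groups. -/
lemma act_firstPart_of_C (hX : MurreC H X) {π π' : ℕ → C.A (X.prod X)} (h : IsCK H X π)
    (h' : IsCK H X π') (m : ℕ) (x : C.A X) :
    C.act (firstPart C π m) (C.act (firstPart C π' m) x) = C.act (firstPart C π' m) x := by
  have hB : MurreB0 H X := murreB0_of_C0 X (fun π π' h h' i => hX π π' h h' i 0)
  have key : (C.actL (firstPart C π m)).comp (C.actL (firstPart C π' m)) =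
      C.actL (firstPart C π' m) := by
    apply ext_grC (C := C)
    intro i y hy
    rw [LinearMap.comp_apply, TheoryData.actL_apply, TheoryData.actL_apply]
    by_cases hm : 2 * i < m
    · rw [act_firstPart_top h' hB hm hy, act_firstPart_top h hB hm hy]
    · have e : 2 * i + 1 - (2 * i + 1 - m) = m := by omega
      have h1 : C.act (firstPart C π' m) y ∈ ckFil C π' i (2 * i + 1 - m) := by
        refine ⟨y, hy, ?_⟩
        rw [e]
        rfl
      rw [hX π' π h' h i (2 * i + 1 - m)] at h1
      obtain ⟨z, hz, hz'⟩ := h1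
      rw [e] at hz'
      have h2 : C.act (firstPart C π' m) y = C.act (firstPart C π m) z := hz'.symm
      rw [h2, ← C.act_comp, comp_firstPart h]
  have := congrArg (fun g : C.A X →ₗ[ℚ] C.A X => g x) key
  exact this

lemma ckFil_le_of {π π' : ℕ → C.A (X.prod X)} (_h : IsCK H X π) (h' : IsCK H X π')
    (hk : ∀ (m : ℕ) (x : C.A X), C.act (firstPart C π m) (C.act (firstPart C π' m) x) =
      C.act (firstPart C π' m) x) (i n : ℕ) : ckFil C π' i n ≤ ckFil C π i n := by
  rintro x ⟨y, hy, rfl⟩
  refine ⟨C.act (firstPart C π' (2 * i + 1 - n)) y, ?_, ?_⟩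
  · rw [firstPart, act_sum]
    exact Submodule.sum_mem _ fun j _ => act_mem0 C (h'.deg j) hy
  · exact hk _ y

lemma murreC_of {π : ℕ → C.A (X.prod X)} (h : IsCK H X π)
    (hk : ∀ π', IsCK H X π' → ∀ (m : ℕ) (x : C.A X),
      C.act (firstPart C π m) (C.act (firstPart C π' m) x) = C.act (firstPart C π' m) x ∧
      C.act (firstPart C π' m) (C.act (firstPart C π m) x) = C.act (firstPart C π m) x) :
    MurreC H X := by
  have key : ∀ π', IsCK H X π' → ∀ i n : ℕ, ckFil C π' i n = ckFil C π i n := by
    intro π' h' i n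
    exact le_antisymm (ckFil_le_of h h' (fun m x => (hk π' h' m x).1) i n)
      (ckFil_le_of h' h (fun m x => (hk π' h' m x).2) i n)
  intro π' π'' h' h'' i n
  rw [key π' h' i n, key π'' h'' i n]

/-- **The universal form implies (C).** -/
theorem murreC_of_universal (hU : UniversalC H X) : MurreC H X := by
  intro π π' h h' i n
  have h1 : ∀ π π', IsCK H X π → IsCK H X π' → ∀ m,
      C.comp (firstPart C π' m) (firstPart C π m) = firstPart C π' m := fun π π' h h' m =>
    (hU π' π h' h X m (firstPart C π' m)).1 (comp_firstPart h' m)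
  apply le_antisymm
  · apply ckFil_le_of h' h
    intro m x
    rw [← C.act_comp, h1 π' π h' h]
  · apply ckFil_le_of h h'
    intro m x
    rw [← C.act_comp, h1 π π' h h']

lemma ps_act {π : ℕ → C.A (X.prod X)} (h : IsCK H X π) (m : ℕ) (x : C.A X) :
    actC0 C X (ps (sys h) m) x = C.act (firstPart C π m) x := by
  rw [← ps_val h m]
  rfl

lemma raisingActsTrivially_iff {π : ℕ → C.A (X.prod X)} (h : IsCK H X π) :
    RaisingActsTrivially C π ↔
      ∀ (x : cor0 C X) (a b : ℕ), a < b → actC0 C X (sys h b * x * sys h a) = 0 := by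
  constructor
  · intro h1 x a b hab
    apply LinearMap.ext
    intro y
    have h2 := h1 x.1 x.2 a b hab y
    rw [← val_sand h h x a b] at h2
    exact h2
  · intro h1 γ hγ a b hab y
    have h2 := h1 ⟨γ, hγ⟩ a b hab
    have h3 := congrArg (fun g : Module.End ℚ (C.A X) => g y) h2
    have h4 := val_sand h h ⟨γ, hγ⟩ a b
    have h5 : C.act (C.comp (C.comp (π a) γ) (π b)) y =
        actC0 C X (sys h b * ⟨γ, hγ⟩ * sys h a) y := by
      change _ = C.act (((sys h b * ⟨γ, hγ⟩ * sys h a : cor0 C X) : Cor C X)) y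
      rw [h4]
    rw [h5]
    exact h3

/-- (C) in the ring. -/
lemma indep_of_C (hX : MurreC H X) {π : ℕ → C.A (X.prod X)} (h : IsCK H X π)
    {e' e'' : ℕ → cor0 C X} (h' : IsSys (act0 H X) (fun i => act0 H X (sys h i)) (2 * X.dim) e')
    (h'' : IsSys (act0 H X) (fun i => act0 H X (sys h i)) (2 * X.dim) e'') (n : ℕ) :
    actC0 C X (ps e' n) * actC0 C X (ps e'' n) = actC0 C X (ps e'' n) := by
  have g' := isCK_of_isSys h h'
  have g'' := isCK_of_isSys h h''
  apply LinearMap.ext
  intro x
  have h1 := act_firstPart_of_C hX g' g'' n x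
  rw [← ps_val g' n, ← ps_val g'' n] at h1
  exact h1

/-- **Consequences of (C) for one variety.** -/
theorem raising_of_C (hX : MurreC H X) {π : ℕ → C.A (X.prod X)} (h : IsCK H X π) :
    RaisingActsTrivially C π := by
  rw [raisingActsTrivially_iff h]
  intro x a b hab
  exact (isSys h h).raise_mem_ker (actC0 C X) (fun x i j hij => act0_sand h x hij)
    (fun e' he' n => indep_of_C hX h (isSys h h) he' n) x hab

theorem phantoms_of_C (hX : MurreC H X) {π : ℕ → C.A (X.prod X)} (h : IsCK H X π) :
    PhantomsActTrivially H π := by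
  intro a q hq hqq h0 h1 h2 x
  by_cases ha : a ≤ 2 * X.dim
  · by_cases hdim : X.dim = 0
    · rw [noPhantom_dim_zero (H := H) hdim q hq hqq h0, C.act_zero]
    · have h3 := (isSys h h).phantom_mem_ker (actC0 C X) (q := ⟨q, hq⟩) (a := a) (by omega)
        (fun e' e'' he' he'' n => indep_of_C hX h he' he'' n) ha (Subtype.ext hqq)
        ((act0_eq_zero_iff _).2 h0) (Subtype.ext h1) (Subtype.ext h2)
      exact congrArg (fun g : Module.End ℚ (C.A X) => g x) h3
  · rw [← h1, h.out a (by omega), comp_zero, C.act_zero]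

lemma compList_replicate (γ : C.A (X.prod X)) (hγ : C.Deg X.dim γ) (m : ℕ) :
    (((⟨γ, hγ⟩ : cor0 C X) ^ m : cor0 C X) : Cor C X) = compList C X (List.replicate m γ) := by
  induction m with
  | zero => rfl
  | succ m ih =>
    rw [pow_succ, List.replicate_succ, compList, ← ih]
    rfl

lemma nil_of (hN : NilpotentKernel H X) (x : cor0 C X) (hx : act0 H X x = 0) : IsNilpotent x := by
  obtain ⟨m, hm⟩ := hN x.1 x.2 ((act0_eq_zero_iff x).1 hx)
  refine ⟨m, Subtype.ext ?_⟩
  exact (compList_replicate (H := H) x.1 x.2 m).trans hm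

lemma noIdempotentAction_of_nil (hN : NilpotentKernel H X) : NoIdempotentAction H X := by
  intro γ hγ h0 hi x
  have h1 : actC0 C X ⟨γ, hγ⟩ = 0 := by
    apply IsSys.map_eq_zero_of_nil (actC0 C X) (nil_of hN _ ((act0_eq_zero_iff _).2 h0))
    apply LinearMap.ext
    intro x
    exact hi x
  exact congrArg (fun g : Module.End ℚ (C.A X) => g x) h1

/-- **The criterion for (C) for one variety.** -/
theorem murreC_iff (hN : NoIdempotentAction H X) {π : ℕ → C.A (X.prod X)} (h : IsCK H X π) :
    MurreC H X ↔ RaisingActsTrivially C π := by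
  constructor
  · exact fun hX => raising_of_C hX h
  · intro hr
    rw [raisingActsTrivially_iff h] at hr
    apply murreC_of h
    intro π' h' m x
    have hnz : ∀ z : cor0 C X, act0 H X z = 0 → actC0 C X z * actC0 C X z = actC0 C X z →
        actC0 C X z = 0 := by
      intro z hz hzz
      apply LinearMap.ext
      intro x
      exact hN z.1 z.2 ((act0_eq_zero_iff z).1 hz)
        (fun x => congrArg (fun g : Module.End ℚ (C.A X) => g x) hzz) x
    have h1 := (isSys h h).ps_eq_of_idem (actC0 C X) hnz hr (isSys h h') m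
    rw [← ps_act h m, ← ps_act h' m, ← ps_act h m x, ← ps_act h' m]
    exact ⟨congrArg (fun g : Module.End ℚ (C.A X) => g x) h1.1,
      congrArg (fun g : Module.End ℚ (C.A X) => g x) h1.2⟩

theorem noPhantoms_of_nil (hN : NilpotentKernel H X) : NoPhantoms H X := by
  rw [← noPhantom_iff]
  intro q hq hf
  obtain ⟨m, hm⟩ := nil_of hN q hf
  have h3 : ∀ k : ℕ, q ^ (k + 1) = q := by
    intro k
    induction k with
    | zero => rw [zero_add, pow_one]
    | succ k ih => rw [pow_succ, ih, hq]
  rw [← h3 m, pow_succ, hm, zero_mul]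

end Pool.Agent.Q28.MC
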